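import Mathlib

set_option autoImplicit false

/-!
Latin squares on `ZMod n`, transversals, the Delta-lemma and hitting sets.
-/

namespace Pool.Agent.Hhelper79.LT

open Finset

variable {n : ℕ}

/-- latin square on `ZMod n` -/
def IsLatin (L : ZMod n → ZMod n → ZMod n) : Prop :=
  (∀ i, Function.Injective (L i)) ∧ ∀ j, Function.Injective (fun i => L i j)

/-- `f i` is the column of the cell in row `i` -/
def IsTrans (L : ZMod n → ZMod n → ZMod n) (f : ZMod n → ZMod n) : Prop :=
  Function.Injective f ∧ Function.Injective (fun i => L i (f i))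

/-- every transversal contains a cell of `H` -/
def Hits (L : ZMod n → ZMod n → ZMod n) (H : Finset (ZMod n × ZMod n)) : Prop :=
  ∀ f, IsTrans L f → ∃ i, (i, f i) ∈ H

/-- certificate that some latin square of order `n` has exactly `m` as the maximal
number of disjoint transversals -/
def Attains (n m : ℕ) : Prop :=
  ∃ L : ZMod n → ZMod n → ZMod n, IsLatin L ∧
    (∃ H : Finset (ZMod n × ZMod n), H.card ≤ m ∧ Hits L H) ∧
    ∃ (ι : Type) (_ : Fintype ι) (F : ι → ZMod n → ZMod n), Fintype.card ι = m ∧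
      (∀ k, IsTrans L (F k)) ∧ ∀ k l, k ≠ l → ∀ i, F k i ≠ F l i

section Delta

theorem sum_univ_zmod {n h : ℕ} [NeZero n] (hn : n = 2 * h) :
    (∑ x : ZMod n, x) = (h : ZMod n) := by
  have h0 : 0 < n := Nat.pos_of_ne_zero (NeZero.ne n)
  have h1 : (∑ x : ZMod n, x) = ((∑ k ∈ Finset.range n, k : ℕ) : ZMod n) := by
    rw [Nat.cast_sum]
    refine Finset.sum_bij' (fun x _ => x.val) (fun k _ => (k : ZMod n)) ?_ ?_ ?_ ?_ ?_
    · intro x _; exact Finset.mem_range.2 (ZMod.val_lt x)
    · intro k _; exact Finset.mem_univ _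
    · intro x _; simp
    · intro k hk
      exact ZMod.val_cast_of_lt (Finset.mem_range.1 hk)
    · intro x _; simp
  rw [h1, Finset.sum_range_id]
  have h2 : n * (n - 1) / 2 = h * (n - 1) := by
    rw [hn, show 2 * h * (2 * h - 1) = 2 * (h * (2 * h - 1)) by ring]
    exact Nat.mul_div_cancel_left _ (by norm_num)
  rw [h2]
  have h3 : h * (n - 1) + h = n * h := by
    obtain ⟨k, hk⟩ : ∃ k, n = k + 1 := ⟨n - 1, by omega⟩
    rw [hk]; simp only [Nat.add_sub_cancel]; ring
  have h4 : ((h * (n - 1) : ℕ) : ZMod n) + (h : ZMod n) = 0 := by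
    rw [← Nat.cast_add, h3, Nat.cast_mul, ZMod.natCast_self, zero_mul]
  have h5 : (h : ZMod n) + (h : ZMod n) = 0 := by
    rw [← Nat.cast_add, show h + h = n by omega, ZMod.natCast_self]
  linear_combination h4 - h5

theorem two_h {n h : ℕ} (hn : n = 2 * h) : (h : ZMod n) + (h : ZMod n) = 0 := by
  rw [← Nat.cast_add, show h + h = n by omega, ZMod.natCast_self]

/-- the Delta-lemma -/
theorem delta_sum {n h : ℕ} [NeZero n] (hn : n = 2 * h) {L : ZMod n → ZMod n → ZMod n}
    {f : ZMod n → ZMod n} (hf : IsTrans L f) :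
    (∑ i, (L i (f i) - i - f i)) = (h : ZMod n) := by
  have e1 : (∑ i, L i (f i)) = ∑ x : ZMod n, x :=
    Function.Bijective.sum_comp (Finite.injective_iff_bijective.1 hf.2) (fun x => x)
  have e2 : (∑ i, f i) = ∑ x : ZMod n, x :=
    Function.Bijective.sum_comp (Finite.injective_iff_bijective.1 hf.1) (fun x => x)
  rw [Finset.sum_sub_distrib, Finset.sum_sub_distrib, e1, e2, sum_univ_zmod hn]
  linear_combination -(two_h hn)

end Delta

/-- transfer to the frozen form -/
theorem Attains.frozen {n m : ℕ} (hn : 0 < n) (h : Attains n m) :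
    ∃ L : Fin n → Fin n → Fin n,
      (∀ i, Function.Injective (L i)) ∧
      (∀ j, Function.Injective (fun i => L i j)) ∧
      (∃ S : Finset (Equiv.Perm (Fin n)), S.card = m ∧
        (∀ σ ∈ S, Function.Injective (fun i => L i (σ i))) ∧
        (∀ σ ∈ S, ∀ τ ∈ S, σ ≠ τ → ∀ i, σ i ≠ τ i)) ∧
      ∀ S : Finset (Equiv.Perm (Fin n)),
        (∀ σ ∈ S, Function.Injective (fun i => L i (σ i))) →
        (∀ σ ∈ S, ∀ τ ∈ S, σ ≠ τ → ∀ i, σ i ≠ τ i) →
        S.card ≤ m := by
  classical
  have hne : NeZero n := ⟨by omega⟩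
  obtain ⟨L, hL, ⟨H, hH, hits⟩, ι, hι, F, hcard, hF, hdis⟩ := h
  let e : ZMod n ≃ Fin n := Fintype.equivFinOfCardEq (ZMod.card n)
  let P : ι → Equiv.Perm (Fin n) := fun k =>
    (e.symm.trans (Equiv.ofBijective _ (Finite.injective_iff_bijective.1 (hF k).1))).trans e
  have hP : ∀ k i, P k i = e (F k (e.symm i)) := fun k i => rfl
  have hPdis : ∀ k l, k ≠ l → ∀ i, P k i ≠ P l i := by
    intro k l hkl i h
    rw [hP, hP] at h
    exact hdis k l hkl _ (e.injective h)
  refine ⟨fun i j => e (L (e.symm i) (e.symm j)), ?_, ?_, ⟨Finset.univ.image P, ?_, ?_, ?_⟩, ?_⟩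
  · intro i j j' h
    exact e.symm.injective (hL.1 _ (e.injective h))
  · intro j i i' h
    exact e.symm.injective (hL.2 _ (e.injective h))
  · rw [Finset.card_image_of_injective, Finset.card_univ, hcard]
    intro k l h
    by_contra hne'
    exact hPdis k l hne' ⟨0, hn⟩ (by rw [h])
  · intro σ hσ
    obtain ⟨k, -, rfl⟩ := Finset.mem_image.1 hσ
    intro i i' h
    simp only [hP, Equiv.symm_apply_apply] at h
    exact e.symm.injective ((hF k).2 (e.injective h))
  · intro σ hσ τ hτ hne' i
    obtain ⟨k, -, rfl⟩ := Finset.mem_image.1 hσ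
    obtain ⟨l, -, rfl⟩ := Finset.mem_image.1 hτ
    exact hPdis k l (fun h => hne' (by rw [h])) i
  · intro S hS hS2
    -- choose a cell of `H` on every member of `S`
    have key : ∀ σ ∈ S, ∃ i, (i, e.symm (σ (e i))) ∈ H := by
      intro σ hσ
      refine hits (fun i => e.symm (σ (e i))) ⟨?_, ?_⟩
      · intro i i' h
        exact e.injective (σ.injective (e.symm.injective h))
      · intro i i' h
        have := @hS σ hσ (e i) (e i') (by simpa using h)
        exact e.injective this
    choose! c hc using key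
    refine le_trans ?_ hH
    refine Finset.card_le_card_of_injOn (fun σ => (c σ, e.symm (σ (e (c σ))))) hc ?_
    intro σ hσ τ hτ h
    simp only [Prod.mk.injEq, EmbeddingLike.apply_eq_iff_eq] at h
    by_contra hne'
    have h2 := h.2
    rw [← h.1] at h2
    exact hS2 σ hσ τ hτ hne' _ h2

end Pool.Agent.Hhelper79.LT
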