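import Mathlib
import Pool.Agent.Hhelper79.LT.Basic

set_option autoImplicit false

/-!
The four transversals of a block: diagonals `t, t+1, t+h, t+h+1`.
-/

namespace Pool.Agent.Hhelper79.LT

open Finset

/-- `d` is one of the four diagonals of the block `t` -/
def Blk {n : ℕ} (h t d : ZMod n) : Prop := d = t ∨ d = t + 1 ∨ d = t + h ∨ d = t + h + 1

/-- offset of the block transversal, as a function of `x = (i - a).val` -/
def off (n h x : ℕ) : ℕ := if x < h then 0 else if x < n - 1 then 1 else 1 + h

/-- the block transversal -/
def bt (n h : ℕ) (a t : ZMod n) (i : ZMod n) : ZMod n := i + t + (off n h (i - a).val : ℕ)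

theorem natCast_inj_of_lt {n a b : ℕ} (ha : a < n) (hb : b < n)
    (h : (a : ZMod n) = (b : ZMod n)) : a = b := by
  have := (ZMod.natCast_eq_natCast_iff' a b n).1 h
  rwa [Nat.mod_eq_of_lt ha, Nat.mod_eq_of_lt hb] at this

theorem bt_injective {n h : ℕ} [NeZero n] (hn : n = 2 * h) (hh : 2 ≤ h) (a t : ZMod n) :
    Function.Injective (bt n h a t) := by
  -- reduce to natural numbers
  have key : ∀ i : ZMod n, bt n h a t i =
      a + t + ((if (i - a).val < h then (i - a).val else
        if (i - a).val < n - 1 then (i - a).val + 1 else h : ℕ) : ZMod n) := by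
    intro i
    have hx : i = a + ((i - a).val : ZMod n) := by simp
    have hlt := ZMod.val_lt (i - a)
    generalize hv : (i - a).val = x at *
    unfold bt off
    rw [hv]
    split_ifs with h1 h2
    · push_cast; linear_combination hx
    · push_cast; linear_combination hx
    · have hxn : x = n - 1 := by omega
      have h3 : ((x : ℕ) : ZMod n) + 1 = 0 := by
        have : ((x + 1 : ℕ) : ZMod n) = 0 := by
          rw [show x + 1 = n by omega]; exact ZMod.natCast_self n
        simpa using this
      push_cast
      linear_combination hx + h3
  intro i j hij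
  rw [key, key] at hij
  have h1 := add_left_cancel hij
  have hi := ZMod.val_lt (i - a)
  have hj := ZMod.val_lt (j - a)
  have h2 := natCast_inj_of_lt (by split_ifs <;> omega) (by split_ifs <;> omega) h1
  have h3 : (i - a).val = (j - a).val := by
    split_ifs at h2 <;> omega
  have h4 := ZMod.val_injective n h3
  exact sub_left_injective h4

/-- the symbols of the block transversal -/
theorem sym_injective {n h : ℕ} [NeZero n] (hn : n = 2 * h) (a t : ZMod n) :
    Function.Injective (fun i : ZMod n =>
      2 * i + t + ((if (i - a).val < h then 0 else 1 : ℕ) : ZMod n)) := by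
  have key : ∀ i : ZMod n, 2 * i + t + ((if (i - a).val < h then 0 else 1 : ℕ) : ZMod n) =
      2 * a + t + ((if (i - a).val < h then 2 * (i - a).val else
        2 * ((i - a).val - h) + 1 : ℕ) : ZMod n) := by
    intro i
    have hx : i = a + ((i - a).val : ZMod n) := by simp
    have hlt := ZMod.val_lt (i - a)
    generalize hv : (i - a).val = x at *
    split_ifs with h1
    · push_cast; linear_combination 2 * hx
    · obtain ⟨y, rfl⟩ : ∃ y, x = h + y := ⟨x - h, by omega⟩
      have h2 := two_h hn
      rw [Nat.add_sub_cancel_left]
      push_cast at hx ⊢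
      linear_combination 2 * hx + h2
  intro i j hij
  simp only [key] at hij
  have h1 := add_left_cancel hij
  have hi := ZMod.val_lt (i - a)
  have hj := ZMod.val_lt (j - a)
  have h2 := natCast_inj_of_lt (by split_ifs <;> omega) (by split_ifs <;> omega) h1
  have h3 : (i - a).val = (j - a).val := by
    split_ifs at h2 <;> omega
  have h4 := ZMod.val_injective n h3
  exact sub_left_injective h4

theorem off_cases (n h x : ℕ) : off n h x = 0 ∨ off n h x = 1 ∨ off n h x = 1 + h := by
  unfold off; split_ifs <;> simp

/-- the diagonals of a block transversal belong to the block -/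
theorem bt_blk {n h : ℕ} (a t i : ZMod n) : Blk (h : ZMod n) t (bt n h a t i - i) := by
  unfold Blk bt
  rcases off_cases n h (i - a).val with e | e | e <;> rw [e]
  · left; push_cast; ring
  · right; left; push_cast; ring
  · right; right; right; push_cast; ring

theorem blk_add_h {n h : ℕ} (hn : n = 2 * h) {t d : ZMod n} :
    Blk (h : ZMod n) (t + h) d ↔ Blk (h : ZMod n) t d := by
  have h2 := two_h hn
  unfold Blk
  have e1 : t + (h : ZMod n) + h = t := by linear_combination h2
  rw [e1]
  constructor
  · rintro (h | h | h | h)
    · right; right; left; exact h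
    · right; right; right; rw [h]
    · left; exact h
    · right; left; exact h
  · rintro (h | h | h | h)
    · right; right; left; exact h
    · right; right; right; rw [h]
    · left; exact h
    · right; left; rw [h]

end Pool.Agent.Hhelper79.LT
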