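import Mathlib
import Pool.Agent.Hhelper79.LT.Block

set_option autoImplicit false

/-!
The assembly theorem: turned intercalates in free blocks add `4 |T|` transversals.
-/

namespace Pool.Agent.Hhelper79.LT

open Finset

section

variable {n h : ℕ}

/-- row `-1` or row `h - 1` -/
def SpRow (h : ℕ) (i : ZMod n) : Prop := i = -1 ∨ i = (h : ZMod n) - 1

/-- columns of the turned intercalates -/
def TCol (h : ℕ) (T : Finset (ZMod n)) (c : ZMod n) : Prop := c ∈ T ∨ c - (h : ZMod n) ∈ T

theorem spRow_add_h (hn : n = 2 * h) {i : ZMod n} :
    SpRow h (i + (h : ZMod n)) ↔ SpRow h i := by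
  have h2 := two_h hn
  unfold SpRow
  constructor
  · rintro (e | e)
    · right; linear_combination e - h2
    · left; linear_combination e
  · rintro (e | e)
    · right; linear_combination e
    · left; linear_combination e + h2

theorem tCol_add_h (hn : n = 2 * h) {T : Finset (ZMod n)} {c : ZMod n} :
    TCol h T (c + (h : ZMod n)) ↔ TCol h T c := by
  have h2 := two_h hn
  have e1 : c + (h : ZMod n) - h = c := by ring
  have e2 : c + (h : ZMod n) = c - h := by linear_combination h2
  unfold TCol
  rw [e1, e2]
  exact or_comm

open Classical in
/-- the square with turned intercalates -/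
noncomputable def turned (h : ℕ) (B : ZMod n → ZMod n → ZMod n) (T : Finset (ZMod n))
    (i c : ZMod n) : ZMod n :=
  if SpRow h i ∧ TCol h T c then i + c + h else B i c

end

section Main

variable {n h : ℕ}

/-- data of a base square with free blocks `T` -/
structure Base (n h : ℕ) (B : ZMod n → ZMod n → ZMod n) (T : Finset (ZMod n)) : Prop where
  latin : IsLatin B
  std : ∀ t ∈ T, ∀ i c : ZMod n, Blk (h : ZMod n) t (c - i) → B i c = i + c
  disj : ∀ t ∈ T, ∀ t' ∈ T, t ≠ t' → ∀ d, Blk (h : ZMod n) t d → ¬ Blk (h : ZMod n) t' d

variable {B : ZMod n → ZMod n → ZMod n} {T : Finset (ZMod n)}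

/-- a turned cell lies in the block -/
theorem turned_blk (hn : n = 2 * h) {i c : ZMod n} (hi : SpRow h i) (hc : TCol h T c) :
    ∃ t ∈ T, Blk (h : ZMod n) t (c - i) := by
  have h2 := two_h hn
  rcases hc with hc | hc
  · refine ⟨c, hc, ?_⟩
    rcases hi with e | e
    · right; left; rw [e]; ring
    · right; right; right; rw [e]; linear_combination -h2
  · refine ⟨_, hc, ?_⟩
    rcases hi with e | e
    · right; right; right; rw [e]; ring
    · right; left; rw [e]; ring

theorem Base.turned_latin (hn : n = 2 * h) (hB : Base n h B T) : IsLatin (turned h B T) := by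
  classical
  have h2 := two_h hn
  have hstd : ∀ i c, SpRow h i → TCol h T c → B i c = i + c := by
    intro i c hi hc
    obtain ⟨t, ht, hb⟩ := turned_blk hn hi hc
    exact hB.std t ht i c hb
  constructor
  · intro i
    by_cases hi : SpRow h i
    · -- `turned` is `B i` composed with an involution
      have e : ∀ c, turned h B T i c = B i (if TCol h T c then c + h else c) := by
        intro c
        unfold turned
        by_cases hc : TCol h T c
        · rw [if_pos ⟨hi, hc⟩, if_pos hc, hstd i _ hi ((tCol_add_h hn).2 hc)]
          ring
        · rw [if_neg (fun h => hc h.2), if_neg hc]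
      intro c c' hcc
      rw [e, e] at hcc
      have h3 := hB.latin.1 i hcc
      by_cases hc : TCol h T c <;> by_cases hc' : TCol h T c'
      · rw [if_pos hc, if_pos hc'] at h3
        exact add_right_cancel h3
      · rw [if_pos hc, if_neg hc'] at h3
        exact absurd (h3 ▸ (tCol_add_h hn).2 hc) hc'
      · rw [if_neg hc, if_pos hc'] at h3
        exact absurd (h3 ▸ (tCol_add_h hn).2 hc') hc
      · rwa [if_neg hc, if_neg hc'] at h3
    · have e : ∀ c, turned h B T i c = B i c := by
        intro c
        unfold turned
        rw [if_neg (fun h => hi h.1)]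
      intro c c' hcc
      rw [e, e] at hcc
      exact hB.latin.1 i hcc
  · intro c
    by_cases hc : TCol h T c
    · have e : ∀ i, turned h B T i c = B (if SpRow h i then i + h else i) c := by
        intro i
        unfold turned
        by_cases hi : SpRow h i
        · rw [if_pos ⟨hi, hc⟩, if_pos hi, hstd _ c ((spRow_add_h hn).2 hi) hc]
          ring
        · rw [if_neg (fun h => hi h.1), if_neg hi]
      intro i i' hii
      simp only [e] at hii
      have h3 := hB.latin.2 c hii
      by_cases hi : SpRow h i <;> by_cases hi' : SpRow h i'
      · rw [if_pos hi, if_pos hi'] at h3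
        exact add_right_cancel h3
      · rw [if_pos hi, if_neg hi'] at h3
        exact absurd (h3 ▸ (spRow_add_h hn).2 hi) hi'
      · rw [if_neg hi, if_pos hi'] at h3
        exact absurd (h3 ▸ (spRow_add_h hn).2 hi') hi
      · rwa [if_neg hi, if_neg hi'] at h3
    · have e : ∀ i, turned h B T i c = B i c := by
        intro i
        unfold turned
        rw [if_neg (fun h => hc h.2)]
      intro i i' hii
      simp only [e] at hii
      exact hB.latin.2 c hii

/-- the block transversals are transversals of the turned square -/
theorem Base.bt_trans [NeZero n] (hn : n = 2 * h) (hh : 2 ≤ h) (hB : Base n h B T)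
    {t a : ZMod n} (ht : t ∈ T ∨ t - (h : ZMod n) ∈ T) (ha : a = 0 ∨ a = (h : ZMod n)) :
    IsTrans (turned h B T) (bt n h a t) := by
  classical
  have h2 := two_h hn
  -- the member of `T` in question
  obtain ⟨t0, ht0, htt⟩ : ∃ t0 ∈ T, t = t0 ∨ t = t0 + (h : ZMod n) := by
    rcases ht with ht | ht
    · exact ⟨t, ht, Or.inl rfl⟩
    · exact ⟨_, ht, Or.inr (by ring)⟩
  have hblk : ∀ d, Blk (h : ZMod n) t d ↔ Blk (h : ZMod n) t0 d := by
    intro d
    rcases htt with rfl | rfl
    · exact Iff.rfl
    · exact blk_add_h hn
  have hh0 : (h : ZMod n) ≠ 0 := by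
    intro e
    rw [ZMod.natCast_eq_zero_iff] at e
    have := Nat.le_of_dvd (by omega) e
    omega
  have hh1 : (h : ZMod n) ≠ 1 := by
    intro e
    have : ((h : ℕ) : ZMod n) = ((1 : ℕ) : ZMod n) := by simpa using e
    have := natCast_inj_of_lt (by omega) (by omega) this
    omega
  have h10 : (1 : ZMod n) ≠ 0 := by
    intro e
    have : ((1 : ℕ) : ZMod n) = ((0 : ℕ) : ZMod n) := by simpa using e
    have := natCast_inj_of_lt (by omega) (by omega) this
    omega
  have hh2 : (h : ZMod n) + 1 ≠ 0 := by
    intro e
    have : ((h + 1 : ℕ) : ZMod n) = ((0 : ℕ) : ZMod n) := by simpa using e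
    have := natCast_inj_of_lt (by omega) (by omega) this
    omega
  refine ⟨bt_injective hn hh a t, ?_⟩
  -- the symbol formula
  have hsym : ∀ i, turned h B T i (bt n h a t i) =
      2 * i + t + ((if (i - a).val < h then 0 else 1 : ℕ) : ZMod n) := by
    intro i
    have hx : i = a + ((i - a).val : ZMod n) := by simp
    have hlt := ZMod.val_lt (i - a)
    have hb : B i (bt n h a t i) = i + bt n h a t i :=
      hB.std t0 ht0 _ _ ((hblk _).1 (bt_blk a t i))
    by_cases hlast : (i - a).val = n - 1
    · -- the special cell
      have hi : i = a - 1 := by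
        have h3 : (((i - a).val : ℕ) : ZMod n) + 1 = 0 := by
          have : (((i - a).val + 1 : ℕ) : ZMod n) = 0 := by
            rw [show (i - a).val + 1 = n by omega]; exact ZMod.natCast_self n
          simpa using this
        linear_combination hx + h3
      have hsp : SpRow h i := by
        rcases ha with rfl | rfl
        · left; rw [hi]; ring
        · right; exact hi
      have hf : bt n h a t i = a + t + (h : ZMod n) := by
        unfold bt off
        rw [hlast, if_neg (by omega), if_neg (by omega), hi]
        push_cast; ring
      have hcol : TCol h T (bt n h a t i) := by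
        rw [hf]
        have hTt : TCol h T t := by
          rcases ht with ht | ht
          · exact Or.inl ht
          · exact Or.inr ht
        rcases ha with rfl | rfl
        · rw [zero_add]; exact (tCol_add_h hn).2 hTt
        · rw [show (h : ZMod n) + t + h = t by linear_combination h2]; exact hTt
      unfold turned
      rw [if_pos ⟨hsp, hcol⟩, hf, hlast, if_neg (by omega), hi]
      push_cast
      rcases ha with rfl | rfl
      · linear_combination h2
      · linear_combination h2
    · -- not turned
      have hnot : ¬ (SpRow h i ∧ TCol h T (bt n h a t i)) := by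
        rintro ⟨hsp, hcol⟩
        -- then `i = a + h - 1`
        have hia : i = a + h - 1 := by
          have hor : i = a - 1 ∨ i = a + h - 1 := by
            rcases ha with rfl | rfl <;> rcases hsp with e | e
            · left; rw [e]; ring
            · right; rw [e]; ring
            · right; rw [e]; linear_combination -h2
            · left; exact e
          rcases hor with e | e
          · exfalso
            apply hlast
            have e1 : i - a = ((n - 1 : ℕ) : ZMod n) := by
              rw [Nat.cast_sub (by omega), ZMod.natCast_self, e]; push_cast; ring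
            rw [e1, ZMod.val_natCast, Nat.mod_eq_of_lt (by omega)]
          · exact e
        have hval : (i - a).val = h - 1 := by
          have e1 : i - a = ((h - 1 : ℕ) : ZMod n) := by
            rw [Nat.cast_sub (by omega), hia]; push_cast; ring
          rw [e1, ZMod.val_natCast, Nat.mod_eq_of_lt (by omega)]
        have hf : bt n h a t i = a + h - 1 + t := by
          unfold bt off
          rw [hval, if_pos (by omega), hia]; push_cast; ring
        rw [hf] at hcol
        -- a member `t'` of `T` with `t' = t - 1` up to `h`
        have hcol' : TCol h T (t - 1) := by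
          rcases ha with rfl | rfl
          · rw [show (0 : ZMod n) + h - 1 + t = (t - 1) + h by ring] at hcol
            exact (tCol_add_h hn).1 hcol
          · rw [show (h : ZMod n) + h - 1 + t = t - 1 by linear_combination h2] at hcol
            exact hcol
        obtain ⟨t', ht', htb, hne⟩ : ∃ t' ∈ T, Blk (h : ZMod n) t' t ∧ t' ≠ t0 := by
          rcases hcol' with hc | hc
          · refine ⟨_, hc, Or.inr (Or.inl (by ring)), ?_⟩
            intro e
            rcases htt with e' | e'
            · rw [e'] at e; apply h10; linear_combination -e
            · rw [e'] at e; apply hh1; linear_combination e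
          · refine ⟨_, hc, Or.inr (Or.inr (Or.inr (by ring))), ?_⟩
            intro e
            rcases htt with e' | e'
            · rw [e'] at e; apply hh2; linear_combination -e
            · rw [e'] at e; apply h10; linear_combination -e
        exact hB.disj t0 ht0 t' ht' (Ne.symm hne) t ((hblk t).1 (Or.inl rfl)) htb
      have e1 : turned h B T i (bt n h a t i) = B i (bt n h a t i) := by
        unfold turned; rw [if_neg hnot]
      rw [e1, hb]
      unfold bt off
      split_ifs with h3 h4
      · push_cast; ring
      · push_cast; ring
      · omega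
  intro i j hij
  simp only [hsym] at hij
  exact sym_injective hn a t hij

/-- different block transversals of one block are disjoint -/
theorem bt_ne [NeZero n] (hn : n = 2 * h) (hh : 2 ≤ h) {a t a' t' : ZMod n}
    (ha : a = 0 ∨ a = (h : ZMod n)) (ha' : a' = 0 ∨ a' = (h : ZMod n))
    (ht : t' = t ∨ t' = t + (h : ZMod n)) (hne : ¬ (a = a' ∧ t = t')) (i : ZMod n) :
    bt n h a t i ≠ bt n h a' t' i := by
  have h2 := two_h hn
  have hh0 : (h : ZMod n) ≠ 0 := by
    intro e
    rw [ZMod.natCast_eq_zero_iff] at e
    have := Nat.le_of_dvd (by omega) e
    omega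
  have hh1 : (h : ZMod n) ≠ 1 := by
    intro e
    have : ((h : ℕ) : ZMod n) = ((1 : ℕ) : ZMod n) := by simpa using e
    have := natCast_inj_of_lt (by omega) (by omega) this
    omega
  have h10 : (1 : ZMod n) ≠ 0 := by
    intro e
    have : ((1 : ℕ) : ZMod n) = ((0 : ℕ) : ZMod n) := by simpa using e
    have := natCast_inj_of_lt (by omega) (by omega) this
    omega
  have hh2 : (h : ZMod n) + 1 ≠ 0 := by
    intro e
    have : ((h + 1 : ℕ) : ZMod n) = ((0 : ℕ) : ZMod n) := by simpa using e
    have := natCast_inj_of_lt (by omega) (by omega) this
    omega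
  -- values of `(i - a).val` for the two possible `a`
  have hval : (i - (h : ZMod n)).val = if (i - 0).val < h then (i - 0).val + h
      else (i - 0).val - h := by
    have hlt := ZMod.val_lt (i - 0)
    have hx : i = ((i - 0).val : ZMod n) := by simp
    generalize hv : (i - 0).val = x at *
    split_ifs with h1
    · have e1 : i - (h : ZMod n) = ((x + h : ℕ) : ZMod n) := by
        push_cast; linear_combination hx - h2
      rw [e1, ZMod.val_natCast, Nat.mod_eq_of_lt (by omega)]
    · have e1 : i - (h : ZMod n) = ((x - h : ℕ) : ZMod n) := by
        rw [Nat.cast_sub (by omega)]; linear_combination hx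
      rw [e1, ZMod.val_natCast, Nat.mod_eq_of_lt (by omega)]
  intro e
  have hlt := ZMod.val_lt (i - 0)
  unfold bt at e
  have e2 : t + (off n h (i - a).val : ZMod n) = t' + (off n h (i - a').val : ZMod n) := by
    linear_combination e
  rcases ha with rfl | rfl <;> rcases ha' with rfl | rfl
  · rcases ht with rfl | rfl
    · exact hne ⟨rfl, rfl⟩
    · exact hh0 (by linear_combination -e2)
  · rw [hval] at e2
    generalize hv : (i - 0).val = x at *
    unfold off at e2
    rcases ht with rfl | rfl
    · have e3 := add_left_cancel e2
      split_ifs at e3 with g1 g2 g3 g4 g5 g6 g7 g8 <;> first | omega | skip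
      all_goals push_cast at e3
      all_goals first
        | exact h10 (by linear_combination e3)
        | exact h10 (by linear_combination -e3)
        | exact hh2 (by linear_combination e3)
        | exact hh2 (by linear_combination -e3)
    · split_ifs at e2 with g1 g2 g3 g4 g5 g6 g7 g8 <;> first | omega | skip
      all_goals push_cast at e2
      all_goals first
        | exact h10 (by linear_combination e2)
        | exact h10 (by linear_combination -e2)
        | exact hh2 (by linear_combination e2)
        | exact hh2 (by linear_combination -e2)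
        | exact hh1 (by linear_combination e2)
        | exact hh1 (by linear_combination -e2)
        | exact hh0 (by linear_combination e2)
        | exact hh0 (by linear_combination -e2)
        | exact h10 (by linear_combination e2 + h2)
        | exact h10 (by linear_combination -e2 - h2)
  · rw [hval] at e2
    generalize hv : (i - 0).val = x at *
    unfold off at e2
    rcases ht with rfl | rfl
    · have e3 := add_left_cancel e2
      split_ifs at e3 with g1 g2 g3 g4 g5 g6 g7 g8 <;> first | omega | skip
      all_goals push_cast at e3
      all_goals first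
        | exact h10 (by linear_combination e3)
        | exact h10 (by linear_combination -e3)
        | exact hh2 (by linear_combination e3)
        | exact hh2 (by linear_combination -e3)
    · split_ifs at e2 with g1 g2 g3 g4 g5 g6 g7 g8 <;> first | omega | skip
      all_goals push_cast at e2
      all_goals first
        | exact h10 (by linear_combination e2)
        | exact h10 (by linear_combination -e2)
        | exact hh2 (by linear_combination e2)
        | exact hh2 (by linear_combination -e2)
        | exact hh1 (by linear_combination e2)
        | exact hh1 (by linear_combination -e2)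
        | exact hh0 (by linear_combination e2)
        | exact hh0 (by linear_combination -e2)
        | exact h10 (by linear_combination e2 + h2)
        | exact h10 (by linear_combination -e2 - h2)
  · rcases ht with rfl | rfl
    · exact hne ⟨rfl, rfl⟩
    · exact hh0 (by linear_combination -e2)

/-- the row offset of a block transversal -/
def aOf (n h : ℕ) (b : Bool) : ZMod n := if b then (h : ZMod n) else 0

/-- the shift of a block transversal -/
def tOf (n h : ℕ) (b : Bool) (t : ZMod n) : ZMod n := if b then t + (h : ZMod n) else t

/-- the turned cells -/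
def tCell (n h : ℕ) (b b' : Bool) (t : ZMod n) : ZMod n × ZMod n :=
  (if b then (h : ZMod n) - 1 else -1, tOf n h b' t)

open Classical in
/-- ASSEMBLY -/
theorem assemble [NeZero n] (hn : n = 2 * h) (hh : 2 ≤ h) (hB : Base n h B T) {r : ℕ}
    (H0 : Finset (ZMod n × ZMod n)) (hH0 : H0.card ≤ r) (hits : Hits B H0)
    {κ : Type} [Fintype κ] (hκ : Fintype.card κ = r) (F0 : κ → ZMod n → ZMod n)
    (hF0 : ∀ k, IsTrans B (F0 k)) (hdis0 : ∀ k l, k ≠ l → ∀ i, F0 k i ≠ F0 l i)
    (havoid : ∀ k i, ∀ t ∈ T, ¬ Blk (h : ZMod n) t (F0 k i - i)) :
    Attains n (4 * T.card + r) := by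
  have h2 := two_h hn
  refine ⟨turned h B T, hB.turned_latin hn,
    ⟨H0 ∪ (Finset.univ : Finset ({t // t ∈ T} × Bool × Bool)).image
      (fun x => tCell n h x.2.1 x.2.2 x.1.1), ?_, ?_⟩,
    ({t // t ∈ T} × Bool × Bool) ⊕ κ, inferInstance,
    fun x => match x with
      | Sum.inl (t, b, b') => bt n h (aOf n h b) (tOf n h b' t.1)
      | Sum.inr k => F0 k, ?_, ?_, ?_⟩
  · refine (Finset.card_union_le _ _).trans ?_
    have h3 : ((Finset.univ : Finset ({t // t ∈ T} × Bool × Bool)).image
      (fun x => tCell n h x.2.1 x.2.2 x.1.1)).card ≤ 4 * T.card := by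
      refine Finset.card_image_le.trans ?_
      rw [Finset.card_univ, Fintype.card_prod, Fintype.card_prod, Fintype.card_bool,
        Fintype.card_coe]
      omega
    omega
  · intro f hf
    by_cases hex : ∃ i, SpRow h i ∧ TCol h T (f i)
    · obtain ⟨i, hi, hc⟩ := hex
      refine ⟨i, Finset.mem_union_right _ ?_⟩
      rw [Finset.mem_image]
      have hc' : ∃ t : {t // t ∈ T}, ∃ b', f i = tOf n h b' t.1 := by
        rcases hc with hc | hc
        · exact ⟨⟨_, hc⟩, false, by simp [tOf]⟩
        · exact ⟨⟨_, hc⟩, true, by simp [tOf]⟩
      have hi' : ∃ b : Bool, i = if b then (h : ZMod n) - 1 else -1 := by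
        rcases hi with hi | hi
        · exact ⟨false, by simp [hi]⟩
        · exact ⟨true, by simp [hi]⟩
      obtain ⟨t, b', hb'⟩ := hc'
      obtain ⟨b, hb⟩ := hi'
      refine ⟨(t, b, b'), Finset.mem_univ _, ?_⟩
      unfold tCell
      exact Prod.ext hb.symm hb'.symm
    · push Not at hex
      have e : ∀ i, turned h B T i (f i) = B i (f i) := by
        intro i
        unfold turned
        rw [if_neg (fun h => hex i h.1 h.2)]
      obtain ⟨i, hi⟩ := hits f ⟨hf.1, by
        have := hf.2
        simp only [e] at this
        exact this⟩
      exact ⟨i, Finset.mem_union_left _ hi⟩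
  · rw [Fintype.card_sum, Fintype.card_prod, Fintype.card_prod, Fintype.card_bool,
      Fintype.card_coe, hκ]
    omega
  · rintro (⟨t, b, b'⟩ | k)
    · refine hB.bt_trans hn hh ?_ ?_
      · unfold tOf
        cases b'
        · left; exact t.2
        · right
          have : t.1 + (h : ZMod n) - h = t.1 := by ring
          simp only [if_true, this]
          exact t.2
      · unfold aOf
        cases b
        · left; rfl
        · right; rfl
    · have e : ∀ i, turned h B T i (F0 k i) = B i (F0 k i) := by
        intro i
        unfold turned
        rw [if_neg]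
        rintro ⟨hi, hc⟩
        obtain ⟨t, ht, hb⟩ := turned_blk hn hi hc
        exact havoid k i t ht hb
      refine ⟨(hF0 k).1, ?_⟩
      show Function.Injective (fun i => turned h B T i (F0 k i))
      simp only [e]
      exact (hF0 k).2
  · rintro (⟨t, b, b'⟩ | k) (⟨s, d, d'⟩ | l) hne i
    · by_cases hts : t = s
      · subst hts
        refine bt_ne hn hh ?_ ?_ ?_ ?_ i
        · unfold aOf; cases b <;> simp
        · unfold aOf; cases d <;> simp
        · unfold tOf
          cases b' <;> cases d'
          · left; rfl
          · right; rfl
          · right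
            simp only [if_true]
            show t.1 = t.1 + (h : ZMod n) + h
            linear_combination -h2
          · left; rfl
        · rintro ⟨ha, ht⟩
          apply hne
          have hh0 : (h : ZMod n) ≠ 0 := by
            intro e
            rw [ZMod.natCast_eq_zero_iff] at e
            have := Nat.le_of_dvd (by omega) e
            omega
          have hb : b = d := by
            unfold aOf at ha
            cases b <;> cases d <;> simp at ha ⊢ <;> first | exact hh0 ha | exact hh0 ha.symm
          have hb' : b' = d' := by
            unfold tOf at ht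
            cases b' <;> cases d' <;> simp at ht ⊢ <;> first | exact hh0 ht | exact hh0 ht.symm
          rw [hb, hb']
      · intro e
        have h3 := bt_blk (h := h) (aOf n h b) (tOf n h b' t.1) i
        have h4 := bt_blk (h := h) (aOf n h d) (tOf n h d' s.1) i
        simp only at e
        rw [e] at h3
        have h5 : Blk (h : ZMod n) t.1 (bt n h (aOf n h d) (tOf n h d' s.1) i - i) := by
          unfold tOf at h3 ⊢
          cases b'
          · exact h3
          · exact (blk_add_h hn).1 h3
        have h6 : Blk (h : ZMod n) s.1 (bt n h (aOf n h d) (tOf n h d' s.1) i - i) := by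
          unfold tOf at h4 ⊢
          cases d'
          · exact h4
          · exact (blk_add_h hn).1 h4
        exact hB.disj t.1 t.2 s.1 s.2 (fun h => hts (Subtype.ext h)) _ h5 h6
    · intro e
      simp only at e
      have h3 := bt_blk (h := h) (aOf n h b) (tOf n h b' t.1) i
      rw [e] at h3
      refine havoid l i t.1 t.2 ?_
      unfold tOf at h3
      cases b'
      · exact h3
      · exact (blk_add_h hn).1 h3
    · intro e
      simp only at e
      have h3 := bt_blk (h := h) (aOf n h d) (tOf n h d' s.1) i
      rw [← e] at h3
      refine havoid k i s.1 s.2 ?_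
      unfold tOf at h3
      cases d'
      · exact h3
      · exact (blk_add_h hn).1 h3
    · exact hdis0 k l (fun h => hne (by rw [h])) i

theorem Base.mono {T' : Finset (ZMod n)} (hB : Base n h B T) (hT : T' ⊆ T) : Base n h B T' :=
  ⟨hB.latin, fun t ht => hB.std t (hT ht), fun t ht t' ht' => hB.disj t (hT ht) t' (hT ht')⟩

open Classical in
/-- ASSEMBLY, for every number `j ≤ |T|` of turned intercalates -/
theorem assemble_le [NeZero n] (hn : n = 2 * h) (hh : 2 ≤ h) (hB : Base n h B T) {r : ℕ}
    (H0 : Finset (ZMod n × ZMod n)) (hH0 : H0.card ≤ r) (hits : Hits B H0)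
    {κ : Type} [Fintype κ] (hκ : Fintype.card κ = r) (F0 : κ → ZMod n → ZMod n)
    (hF0 : ∀ k, IsTrans B (F0 k)) (hdis0 : ∀ k l, k ≠ l → ∀ i, F0 k i ≠ F0 l i)
    (havoid : ∀ k i, ∀ t ∈ T, ¬ Blk (h : ZMod n) t (F0 k i - i)) {j : ℕ} (hj : j ≤ T.card) :
    Attains n (4 * j + r) := by
  obtain ⟨T', hT', rfl⟩ := Finset.exists_subset_card_eq hj
  exact assemble hn hh (hB.mono hT') H0 hH0 hits hκ F0 hF0 hdis0
    (fun k i t ht => havoid k i t (hT' ht))

end Main

end Pool.Agent.Hhelper79.LT
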