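import Mathlib
import Pool.Agent.Hhelper79.LT.Assembly

set_option autoImplicit false

/-!
Arithmetic of blocks, and the values `m = 4 j`.
-/

namespace Pool.Agent.Hhelper79.LT

open Finset

theorem eq_or_add_h_iff {n h : ℕ} [NeZero n] (hn : n = 2 * h) (u : ℕ) (d : ZMod n) :
    (d = (u : ZMod n) ∨ d = (u : ZMod n) + (h : ZMod n)) ↔ d.val % h = u % h := by
  have hpos : 0 < n := Nat.pos_of_ne_zero (NeZero.ne n)
  have hh : 0 < h := by omega
  have hdvd : h ∣ n := ⟨2, by omega⟩
  constructor
  · rintro (rfl | rfl)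
    · rw [ZMod.val_natCast, Nat.mod_mod_of_dvd _ hdvd]
    · rw [← Nat.cast_add, ZMod.val_natCast, Nat.mod_mod_of_dvd _ hdvd, Nat.add_mod_right]
  · intro hd
    have hlt := ZMod.val_lt d
    have hdv : d = ((d.val : ℕ) : ZMod n) := by simp
    have hu : (u : ZMod n) = ((u % n : ℕ) : ZMod n) := by simp
    have hun := Nat.mod_lt u hpos
    have e1 : u % n % h = u % h := Nat.mod_mod_of_dvd _ hdvd
    have hm : ∀ x, x < n → x = x % h ∨ x = x % h + h := by
      intro x hx
      rcases Nat.lt_or_ge x h with hxh | hxh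
      · left; exact (Nat.mod_eq_of_lt hxh).symm
      · right
        have : (x - h) % h = x % h := by
          conv_rhs => rw [show x = (x - h) + h by omega, Nat.add_mod_right]
        rw [Nat.mod_eq_of_lt (by omega)] at this
        omega
    have h2 := two_h hn
    rcases hm _ hlt with h3 | h3 <;> rcases hm _ hun with h4 | h4
    · left; rw [hdv, hu, h3, h4, hd, e1]
    · right
      have h5 : u % n = d.val + h := by rw [h4, e1, ← hd, ← h3]
      rw [hu, h5]
      push_cast
      rw [← hdv]; linear_combination -h2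
    · right
      have h5 : d.val = u % n + h := by rw [h3, hd, ← e1, ← h4]
      rw [hdv, hu, h5]; push_cast; ring
    · left; rw [hdv, hu, h3, h4, hd, e1]

theorem blk_iff {n h : ℕ} [NeZero n] (hn : n = 2 * h) (u : ℕ) (d : ZMod n) :
    Blk (h : ZMod n) (u : ZMod n) d ↔ (d.val % h = u % h ∨ d.val % h = (u + 1) % h) := by
  rw [← eq_or_add_h_iff hn, ← eq_or_add_h_iff hn]
  unfold Blk
  push_cast
  constructor
  · rintro (e | e | e | e)
    · exact Or.inl (Or.inl e)
    · exact Or.inr (Or.inl e)
    · exact Or.inl (Or.inr e)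
    · exact Or.inr (Or.inr (by rw [e]; ring))
  · rintro ((e | e) | (e | e))
    · exact Or.inl e
    · exact Or.inr (Or.inr (Or.inl e))
    · exact Or.inr (Or.inl e)
    · exact Or.inr (Or.inr (Or.inr (by rw [e]; ring)))

/-- the residues `u` modulo `h`, as elements of `ZMod n` -/
def castSet (n : ℕ) (U : Finset ℕ) : Finset (ZMod n) := U.image (fun u : ℕ => (u : ZMod n))

theorem card_castSet {n h : ℕ} (hn : n = 2 * h) {U : Finset ℕ} (hU : ∀ u ∈ U, u < h) :
    (castSet n U).card = U.card := by
  refine Finset.card_image_of_injOn ?_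
  intro u hu v hv e
  have h1 := hU u hu
  have h2 := hU v hv
  exact natCast_inj_of_lt (by omega) (by omega) e

/-- a set `U` of starting points `u < h - 1` with pairwise distance at least two gives
disjoint blocks -/
theorem base_of_nat {n h : ℕ} [NeZero n] (hn : n = 2 * h) {B : ZMod n → ZMod n → ZMod n}
    (hB : IsLatin B) {U : Finset ℕ} (hU : ∀ u ∈ U, u + 1 < h)
    (hU2 : ∀ u ∈ U, ∀ v ∈ U, u < v → u + 1 < v)
    (hstd : ∀ u ∈ U, ∀ i c : ZMod n, (c - i).val % h = u ∨ (c - i).val % h = u + 1 →
      B i c = i + c) : Base n h B (castSet n U) := by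
  refine ⟨hB, ?_, ?_⟩
  · intro t ht i c hb
    obtain ⟨u, hu, rfl⟩ := Finset.mem_image.1 ht
    have := hU u hu
    rw [blk_iff hn, Nat.mod_eq_of_lt (show u < h by omega),
      Nat.mod_eq_of_lt (show u + 1 < h by omega)] at hb
    exact hstd u hu i c hb
  · intro t ht t' ht' hne d hd hd'
    obtain ⟨u, hu, rfl⟩ := Finset.mem_image.1 ht
    obtain ⟨v, hv, rfl⟩ := Finset.mem_image.1 ht'
    have h1 := hU u hu
    have h2 := hU v hv
    rw [blk_iff hn, Nat.mod_eq_of_lt (show u < h by omega),
      Nat.mod_eq_of_lt (show u + 1 < h by omega)] at hd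
    rw [blk_iff hn, Nat.mod_eq_of_lt (show v < h by omega),
      Nat.mod_eq_of_lt (show v + 1 < h by omega)] at hd'
    have huv : u ≠ v := fun e => hne (by rw [e])
    rcases Nat.lt_or_gt_of_ne huv with h3 | h3
    · have := hU2 u hu v hv h3; omega
    · have := hU2 v hv u hu h3; omega

theorem latin_add (n : ℕ) : IsLatin (fun i c : ZMod n => i + c) :=
  ⟨fun _ _ _ h => add_left_cancel h, fun _ _ _ h => add_right_cancel h⟩

/-- the cyclic square has no transversal -/
theorem hits_add {n h : ℕ} [NeZero n] (hn : n = 2 * h) :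
    Hits (fun i c : ZMod n => i + c) ∅ := by
  intro f hf
  exfalso
  have h1 := delta_sum hn hf
  have h2 : (∑ i : ZMod n, (i + f i - i - f i)) = 0 := by
    refine Finset.sum_eq_zero ?_
    intro i _; ring
  rw [h2] at h1
  have h3 := h1.symm
  rw [ZMod.natCast_eq_zero_iff] at h3
  have hpos : 0 < n := Nat.pos_of_ne_zero (NeZero.ne n)
  have := Nat.le_of_dvd (by omega) h3
  omega

/-- the values `m = 4 j` -/
theorem attains_four {n h : ℕ} (hn : n = 2 * h) (hh : 2 ≤ h) {j : ℕ} (hj : 2 * j ≤ h) :
    Attains n (4 * j) := by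
  have hne : NeZero n := ⟨by omega⟩
  have hU : ∀ u ∈ (Finset.range j).image (fun s => 2 * s), u + 1 < h := by
    intro u hu
    obtain ⟨s, hs, rfl⟩ := Finset.mem_image.1 hu
    have := Finset.mem_range.1 hs
    omega
  have hbase : Base n h (fun i c : ZMod n => i + c)
      (castSet n ((Finset.range j).image (fun s => 2 * s))) := by
    refine base_of_nat hn (latin_add n) hU ?_ (fun _ _ _ _ _ => rfl)
    intro u hu v hv huv
    obtain ⟨s, hs, rfl⟩ := Finset.mem_image.1 hu
    obtain ⟨s', hs', rfl⟩ := Finset.mem_image.1 hv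
    omega
  have hcard : (castSet n ((Finset.range j).image (fun s => 2 * s))).card = j := by
    rw [card_castSet hn (fun u hu => by have := hU u hu; omega),
      Finset.card_image_of_injective _ (fun a b h => by simpa using h), Finset.card_range]
  have := assemble hn hh hbase ∅ (r := 0) (by simp) (hits_add hn) (κ := Fin 0) (by simp)
    (fun k => k.elim0) (fun k => k.elim0) (fun k => k.elim0) (fun k => k.elim0)
  rw [hcard] at this
  simpa using this

end Pool.Agent.Hhelper79.LT
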