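import Mathlib
import Pool.Agent.Hhelper79.LT.Four

set_option autoImplicit false

/-!
`n = 4 q`: the cyclic square with one 4 x 4 subsquare replaced.
-/

namespace Pool.Agent.Hhelper79.LT

open Finset

/-- the cyclic square of order `4 q` with the subsquare (multiples of `q`) replaced by `Q` -/
def quadB (q : ℕ) (Q : ℕ → ℕ → ℕ) (i c : ZMod (4 * q)) : ZMod (4 * q) :=
  if i.val % q = 0 ∧ c.val % q = 0 then ((Q (i.val / q) (c.val / q) * q : ℕ) : ZMod (4 * q))
  else i + c

/-- `Q` is a latin square of order four -/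
def Latin4 (Q : ℕ → ℕ → ℕ) : Prop :=
  (∀ i < 4, ∀ j < 4, Q i j < 4) ∧ (∀ i < 4, ∀ j < 4, ∀ k < 4, Q i j = Q i k → j = k) ∧
    (∀ i < 4, ∀ j < 4, ∀ k < 4, Q i j = Q k j → i = k)

instance (Q : ℕ → ℕ → ℕ) : Decidable (Latin4 Q) := by
  unfold Latin4; infer_instance

section

variable {q : ℕ}

theorem val_add_mod (hq : 0 < q) (a b : ZMod (4 * q)) :
    (a + b).val % q = (a.val + b.val) % q := by
  have : NeZero (4 * q) := ⟨by omega⟩
  rw [ZMod.val_add, Nat.mod_mod_of_dvd _ (Dvd.intro_left 4 rfl)]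

theorem val_mulq (hq : 0 < q) {a : ℕ} (ha : a < 4) :
    (((a * q : ℕ) : ZMod (4 * q))).val = a * q := by
  rw [ZMod.val_natCast, Nat.mod_eq_of_lt]
  exact Nat.mul_lt_mul_of_pos_right ha hq

theorem val_div_lt (hq : 0 < q) (a : ZMod (4 * q)) : a.val / q < 4 := by
  have : NeZero (4 * q) := ⟨by omega⟩
  have := ZMod.val_lt a
  exact (Nat.div_lt_iff_lt_mul hq).2 this

theorem eq_of_div_eq (hq : 0 < q) {a b : ZMod (4 * q)} (h1 : a.val % q = b.val % q)
    (h2 : a.val / q = b.val / q) : a = b := by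
  have : NeZero (4 * q) := ⟨by omega⟩
  apply ZMod.val_injective
  rw [← Nat.div_add_mod a.val q, ← Nat.div_add_mod b.val q, h1, h2]

theorem quadB_latin (hq : 0 < q) {Q : ℕ → ℕ → ℕ} (hQ : Latin4 Q) : IsLatin (quadB q Q) := by
  have hne : NeZero (4 * q) := ⟨by omega⟩
  obtain ⟨hQ1, hQ2, hQ3⟩ := hQ
  constructor
  · intro i c c' h
    unfold quadB at h
    by_cases hi : i.val % q = 0
    · by_cases hc : c.val % q = 0 <;> by_cases hc' : c'.val % q = 0
      · rw [if_pos ⟨hi, hc⟩, if_pos ⟨hi, hc'⟩] at h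
        have h1 := congrArg ZMod.val h
        rw [val_mulq hq (hQ1 _ (val_div_lt hq i) _ (val_div_lt hq c)),
          val_mulq hq (hQ1 _ (val_div_lt hq i) _ (val_div_lt hq c'))] at h1
        have h2 := Nat.eq_of_mul_eq_mul_right hq h1
        exact eq_of_div_eq hq (hc.trans hc'.symm)
          (hQ2 _ (val_div_lt hq i) _ (val_div_lt hq c) _ (val_div_lt hq c') h2)
      · rw [if_pos ⟨hi, hc⟩, if_neg (fun h => hc' h.2)] at h
        exfalso
        have h1 := congrArg (fun x => ZMod.val x % q) h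
        rw [val_mulq hq (hQ1 _ (val_div_lt hq i) _ (val_div_lt hq c)), Nat.mul_mod_left,
          val_add_mod hq, Nat.add_mod, hi, zero_add, Nat.mod_mod] at h1
        exact hc' h1.symm
      · rw [if_neg (fun h => hc h.2), if_pos ⟨hi, hc'⟩] at h
        exfalso
        have h1 := congrArg (fun x => ZMod.val x % q) h
        rw [val_mulq hq (hQ1 _ (val_div_lt hq i) _ (val_div_lt hq c')), Nat.mul_mod_left,
          val_add_mod hq, Nat.add_mod, hi, zero_add, Nat.mod_mod] at h1
        exact hc h1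
      · rw [if_neg (fun h => hc h.2), if_neg (fun h => hc' h.2)] at h
        exact add_left_cancel h
    · rw [if_neg (fun h => hi h.1), if_neg (fun h => hi h.1)] at h
      exact add_left_cancel h
  · intro c i i' h
    simp only [quadB] at h
    by_cases hc : c.val % q = 0
    · by_cases hi : i.val % q = 0 <;> by_cases hi' : i'.val % q = 0
      · rw [if_pos ⟨hi, hc⟩, if_pos ⟨hi', hc⟩] at h
        have h1 := congrArg ZMod.val h
        rw [val_mulq hq (hQ1 _ (val_div_lt hq i) _ (val_div_lt hq c)),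
          val_mulq hq (hQ1 _ (val_div_lt hq i') _ (val_div_lt hq c))] at h1
        have h2 := Nat.eq_of_mul_eq_mul_right hq h1
        exact eq_of_div_eq hq (hi.trans hi'.symm)
          (hQ3 _ (val_div_lt hq i) _ (val_div_lt hq c) _ (val_div_lt hq i') h2)
      · rw [if_pos ⟨hi, hc⟩, if_neg (fun h => hi' h.1)] at h
        exfalso
        have h1 := congrArg (fun x => ZMod.val x % q) h
        rw [val_mulq hq (hQ1 _ (val_div_lt hq i) _ (val_div_lt hq c)), Nat.mul_mod_left,
          val_add_mod hq, Nat.add_mod, hc, add_zero, Nat.mod_mod] at h1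
        exact hi' h1.symm
      · rw [if_neg (fun h => hi h.1), if_pos ⟨hi', hc⟩] at h
        exfalso
        have h1 := congrArg (fun x => ZMod.val x % q) h
        rw [val_mulq hq (hQ1 _ (val_div_lt hq i') _ (val_div_lt hq c)), Nat.mul_mod_left,
          val_add_mod hq, Nat.add_mod, hc, add_zero, Nat.mod_mod] at h1
        exact hi h1
      · rw [if_neg (fun h => hi h.1), if_neg (fun h => hi' h.1)] at h
        exact add_right_cancel h
    · rw [if_neg (fun h => hc h.2), if_neg (fun h => hc h.2)] at h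
      exact add_right_cancel h

/-! the upper bound -/

/-- contribution of the choice `a` in the special row `r`; `a = 4` means: not in the
subsquare -/
def dQ (Q : ℕ → ℕ → ℕ) (r a : ℕ) : ℕ := if a < 4 then Q r a + (8 - r - a) else 0

/-- two choices are compatible: different columns and different symbols -/
def dif (Q : ℕ → ℕ → ℕ) (r s a b : ℕ) : Bool :=
  a == 4 || b == 4 || (!(a == b) && !(Q r a == Q s b))

/-- every admissible choice in the four special rows with the right sum meets `H` -/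
def chkHits (Q : ℕ → ℕ → ℕ) (H : List (ℕ × ℕ)) : Bool :=
  (List.range 5).all fun a => (List.range 5).all fun b => (List.range 5).all fun c =>
    (List.range 5).all fun d =>
      !(dif Q 0 1 a b && dif Q 0 2 a c && dif Q 0 3 a d && dif Q 1 2 b c && dif Q 1 3 b d &&
        dif Q 2 3 c d &&
        (dQ Q 0 a + dQ Q 1 b + dQ Q 2 c + dQ Q 3 d) % 4 == 2) ||
      (H.elem (0, a) || H.elem (1, b) || H.elem (2, c) || H.elem (3, d))

theorem chkHits_spec {Q : ℕ → ℕ → ℕ} {H : List (ℕ × ℕ)} (h : chkHits Q H = true)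
    (x : ℕ → ℕ) (hx : ∀ r < 4, x r < 5)
    (hd : ∀ r < 4, ∀ s < 4, r ≠ s → x r < 4 → x s < 4 → x r ≠ x s ∧ Q r (x r) ≠ Q s (x s))
    (hs : (dQ Q 0 (x 0) + dQ Q 1 (x 1) + dQ Q 2 (x 2) + dQ Q 3 (x 3)) % 4 = 2) :
    ∃ r < 4, (r, x r) ∈ H := by
  unfold chkHits at h
  simp only [List.all_eq_true, List.mem_range] at h
  have h1 := h _ (hx 0 (by norm_num)) _ (hx 1 (by norm_num)) _ (hx 2 (by norm_num)) _
    (hx 3 (by norm_num))
  have hdif : ∀ r < 4, ∀ s < 4, r ≠ s → dif Q r s (x r) (x s) = true := by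
    intro r hr s hs hrs
    unfold dif
    have h2 := hx r hr
    have h3 := hx s hs
    rcases Nat.lt_or_ge (x r) 4 with h4 | h4
    · rcases Nat.lt_or_ge (x s) 4 with h5 | h5
      · have := hd r hr s hs hrs h4 h5
        simp [this.1, this.2]
      · have : x s = 4 := by omega
        simp [this]
    · have : x r = 4 := by omega
      simp [this]
  rw [hdif 0 (by norm_num) 1 (by norm_num) (by norm_num),
    hdif 0 (by norm_num) 2 (by norm_num) (by norm_num),
    hdif 0 (by norm_num) 3 (by norm_num) (by norm_num),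
    hdif 1 (by norm_num) 2 (by norm_num) (by norm_num),
    hdif 1 (by norm_num) 3 (by norm_num) (by norm_num),
    hdif 2 (by norm_num) 3 (by norm_num) (by norm_num), hs] at h1
  simp only [Bool.and_self, beq_self_eq_true, Bool.not_true, Bool.false_or, Bool.or_eq_true,
    List.elem_eq_mem, decide_eq_true_eq] at h1
  rcases h1 with ((h1 | h1) | h1) | h1
  · exact ⟨0, by norm_num, h1⟩
  · exact ⟨1, by norm_num, h1⟩
  · exact ⟨2, by norm_num, h1⟩
  · exact ⟨3, by norm_num, h1⟩

/-- the hitting set -/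
def quadH (q : ℕ) (H : List (ℕ × ℕ)) : Finset (ZMod (4 * q) × ZMod (4 * q)) :=
  H.toFinset.image (fun x => (((x.1 * q : ℕ) : ZMod (4 * q)), ((x.2 * q : ℕ) : ZMod (4 * q))))

theorem card_quadH (q : ℕ) (H : List (ℕ × ℕ)) : (quadH q H).card ≤ H.length :=
  Finset.card_image_le.trans (List.toFinset_card_le _)

/-- THE UPPER BOUND -/
theorem quad_hits (hq : 0 < q) {Q : ℕ → ℕ → ℕ} {H : List (ℕ × ℕ)}
    (hH : chkHits Q H = true) (hH4 : ∀ x ∈ H, x.2 < 4) : Hits (quadB q Q) (quadH q H) := by
  classical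
  have hne : NeZero (4 * q) := ⟨by omega⟩
  intro f hf
  have hn : 4 * q = 2 * (2 * q) := by ring
  have hsum := delta_sum hn hf
  -- the four special rows
  let R : ℕ → ZMod (4 * q) := fun r => ((r * q : ℕ) : ZMod (4 * q))
  have hRval : ∀ r < 4, (R r).val = r * q := fun r hr => val_mulq hq hr
  have hRdiv : ∀ r < 4, (R r).val / q = r := by
    intro r hr; rw [hRval r hr]; exact Nat.mul_div_cancel _ hq
  have hRmod : ∀ r < 4, (R r).val % q = 0 := by
    intro r hr; rw [hRval r hr]; exact Nat.mul_mod_left _ _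
  have hRinj : ∀ r < 4, ∀ s < 4, R r = R s → r = s := by
    intro r hr s hs h
    have := congrArg ZMod.val h
    rw [hRval r hr, hRval s hs] at this
    exact Nat.eq_of_mul_eq_mul_right hq this
  -- the choices
  let x : ℕ → ℕ := fun r => if (f (R r)).val % q = 0 then (f (R r)).val / q else 4
  have hx5 : ∀ r < 4, x r < 5 := by
    intro r hr
    simp only [x]
    split_ifs
    · have := val_div_lt hq (f (R r)); omega
    · norm_num
  have hx4 : ∀ r < 4, x r < 4 → (f (R r)).val % q = 0 ∧ x r = (f (R r)).val / q := by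
    intro r hr h
    simp only [x] at h ⊢
    by_cases h1 : (f (R r)).val % q = 0
    · rw [if_pos h1]; exact ⟨h1, rfl⟩
    · rw [if_neg h1] at h; omega
  -- the Delta in the special rows
  have hdelta : ∀ r < 4, quadB q Q (R r) (f (R r)) - R r - f (R r) =
      ((dQ Q r (x r) * q : ℕ) : ZMod (4 * q)) := by
    intro r hr
    by_cases h1 : (f (R r)).val % q = 0
    · have hxr : x r = (f (R r)).val / q := by simp only [x]; rw [if_pos h1]
      have hxlt : x r < 4 := by rw [hxr]; exact val_div_lt hq _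
      have hfe : f (R r) = ((x r * q : ℕ) : ZMod (4 * q)) := by
        apply eq_of_div_eq hq
        · rw [h1, val_mulq hq hxlt, Nat.mul_mod_left]
        · rw [val_mulq hq hxlt, Nat.mul_div_cancel _ hq, hxr]
      unfold quadB dQ
      rw [if_pos ⟨hRmod r hr, h1⟩, hRdiv r hr, ← hxr, if_pos hxlt, hfe]
      simp only [R]
      have h8 : ((8 - r - x r : ℕ) : ZMod (4 * q)) = 8 - (r : ZMod (4 * q)) - x r := by
        rw [Nat.cast_sub (by omega), Nat.cast_sub (by omega)]; norm_num
      have h4q : (4 : ZMod (4 * q)) * (q : ZMod (4 * q)) = 0 := by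
        have := ZMod.natCast_self (4 * q)
        push_cast at this
        exact this
      push_cast [h8]
      linear_combination -2 * h4q
    · have hxr : x r = 4 := by simp only [x]; rw [if_neg h1]
      unfold quadB dQ
      rw [if_neg (fun h => h1 h.2), hxr]
      simp
  have hsum2 : (∑ i, (quadB q Q i (f i) - i - f i)) =
      (((dQ Q 0 (x 0) + dQ Q 1 (x 1) + dQ Q 2 (x 2) + dQ Q 3 (x 3)) * q : ℕ) : ZMod (4 * q)) := by
    have h1 : (∑ i, (quadB q Q i (f i) - i - f i)) =
        ∑ i ∈ (Finset.range 4).image R, (quadB q Q i (f i) - i - f i) := by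
      symm
      refine Finset.sum_subset (Finset.subset_univ _) ?_
      intro i _ hi
      have hi' : i.val % q ≠ 0 := by
        intro h
        apply hi
        refine Finset.mem_image.2 ⟨i.val / q, Finset.mem_range.2 (val_div_lt hq i), ?_⟩
        apply eq_of_div_eq hq
        · rw [hRmod _ (val_div_lt hq i), h]
        · rw [hRdiv _ (val_div_lt hq i)]
      unfold quadB
      rw [if_neg (fun h => hi' h.1)]
      ring
    rw [h1, Finset.sum_image (fun r hr s hs h =>
      hRinj r (Finset.mem_range.1 hr) s (Finset.mem_range.1 hs) h)]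
    rw [Finset.sum_congr rfl (fun r hr => hdelta r (Finset.mem_range.1 hr))]
    simp only [Finset.sum_range_succ, Finset.sum_range_zero, zero_add]
    push_cast; ring
  rw [hsum2] at hsum
  have hmod : (dQ Q 0 (x 0) + dQ Q 1 (x 1) + dQ Q 2 (x 2) + dQ Q 3 (x 3)) % 4 = 2 := by
    have h1 := (ZMod.natCast_eq_natCast_iff _ _ _).1 hsum
    have h2 : (dQ Q 0 (x 0) + dQ Q 1 (x 1) + dQ Q 2 (x 2) + dQ Q 3 (x 3)) ≡ 2 [MOD 4] :=
      Nat.ModEq.mul_right_cancel' (by omega) h1
    exact h2
  have hd : ∀ r < 4, ∀ s < 4, r ≠ s → x r < 4 → x s < 4 →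
      x r ≠ x s ∧ Q r (x r) ≠ Q s (x s) := by
    intro r hr s hs hrs hxr hxs
    obtain ⟨m1, e1⟩ := hx4 r hr hxr
    obtain ⟨m2, e2⟩ := hx4 s hs hxs
    constructor
    · intro h
      apply hrs
      apply hRinj r hr s hs
      apply hf.1
      apply eq_of_div_eq hq (m1.trans m2.symm)
      rw [← e1, ← e2, h]
    · intro h
      apply hrs
      apply hRinj r hr s hs
      apply hf.2
      show quadB q Q (R r) (f (R r)) = quadB q Q (R s) (f (R s))
      unfold quadB
      rw [if_pos ⟨hRmod r hr, m1⟩, if_pos ⟨hRmod s hs, m2⟩, hRdiv r hr, hRdiv s hs,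
        ← e1, ← e2, h]
  obtain ⟨r, hr, hmem⟩ := chkHits_spec hH x hx5 hd hmod
  refine ⟨R r, Finset.mem_image.2 ⟨(r, x r), List.mem_toFinset.2 hmem, ?_⟩⟩
  have hxlt : x r < 4 ∨ x r = 4 := by have := hx5 r hr; omega
  rcases hxlt with hxlt | hxlt
  · obtain ⟨m1, e1⟩ := hx4 r hr hxlt
    refine Prod.ext rfl ?_
    apply eq_of_div_eq hq
    · rw [m1]; simp only; rw [val_mulq hq hxlt, Nat.mul_mod_left]
    · simp only; rw [val_mulq hq hxlt, Nat.mul_div_cancel _ hq, e1]
  · exfalso
    have := hH4 _ hmem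
    simp only at this
    omega

end

end Pool.Agent.Hhelper79.LT
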