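import Mathlib
import Pool.Agent.Hhelper79.LT.Quad

set_option autoImplicit false

/-!
`n = 4 q`: table driven transversals.
-/

namespace Pool.Agent.Hhelper79.LT

open Finset

section

variable {q : ℕ}

theorem mod_split (hq : 0 < q) {A A' a b : ℕ} (h : A * q + a ≡ A' * q + b [MOD 4 * q])
    (hab : b ≤ a) (hlt : a < b + 3 * q) :
    (a = b ∧ A % 4 = A' % 4) ∨ (a = b + q ∧ (A + 1) % 4 = A' % 4) ∨
      (a = b + 2 * q ∧ (A + 2) % 4 = A' % 4) := by
  obtain ⟨k, rfl⟩ := Nat.exists_eq_add_of_le hab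
  have h1 : b + k ≡ b [MOD q] := by
    have h2 : A * q + (b + k) ≡ A' * q + b [MOD q] := h.of_dvd (Dvd.intro_left 4 rfl)
    have h3 : A * q + (b + k) ≡ b + k [MOD q] := by
      simp [Nat.ModEq]
    have h4 : A' * q + b ≡ b [MOD q] := by
      simp [Nat.ModEq]
    exact (h3.symm.trans h2).trans h4
  have h2 : q ∣ k := by
    have := (Nat.modEq_iff_dvd' (Nat.le_add_right b k)).1 h1.symm
    simpa using this
  obtain ⟨m, rfl⟩ := h2
  have hm : m < 3 := by
    by_contra hcon
    push Not at hcon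
    have : q * 3 ≤ q * m := Nat.mul_le_mul_left q hcon
    omega
  have h3 : (A + m) * q ≡ A' * q [MOD 4 * q] := by
    have h4 : b + (A + m) * q ≡ b + A' * q [MOD 4 * q] := by
      have e1 : b + (A + m) * q = A * q + (b + q * m) := by ring
      have e2 : b + A' * q = A' * q + b := by ring
      rw [e1, e2]; exact h
    exact Nat.ModEq.add_left_cancel' b h4
  have h4 : A + m ≡ A' [MOD 4] := Nat.ModEq.mul_right_cancel' (by omega) h3
  interval_cases m
  · left; exact ⟨by ring, h4⟩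
  · right; left; exact ⟨by ring, h4⟩
  · right; right; exact ⟨by ring, h4⟩

/-- injectivity, slope one -/
theorem inj_one (hq : 4 ≤ q) (A E : ℕ → ℕ → ℕ) (hE : ∀ c ρ, E c ρ ≤ 4)
    (ha : ∀ c d ρ ρ', c + d < q → d ≤ 4 → ρ < 4 → ρ' < 4 → ¬ (d = 0 ∧ ρ = ρ') →
      E c ρ = d + E (c + d) ρ' → A c ρ % 4 = A (c + d) ρ' % 4 → False)
    (hb : ∀ c c' w ρ ρ', c < q → c' < q → q + c' = c + w → w ≤ 4 → ρ < 4 → ρ' < 4 →
      E c ρ = w + E c' ρ' → (A c ρ + 1) % 4 = A c' ρ' % 4 → False) :
    ∀ c c' ρ ρ', c < q → c' < q → ρ < 4 → ρ' < 4 →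
      A c ρ * q + (c + E c ρ) ≡ A c' ρ' * q + (c' + E c' ρ') [MOD 4 * q] →
      c = c' ∧ ρ = ρ' := by
  have key : ∀ c c' ρ ρ', c < q → c' < q → ρ < 4 → ρ' < 4 → c' + E c' ρ' ≤ c + E c ρ →
      A c ρ * q + (c + E c ρ) ≡ A c' ρ' * q + (c' + E c' ρ') [MOD 4 * q] →
      c = c' ∧ ρ = ρ' := by
    intro c c' ρ ρ' hc hc' hρ hρ' hle h
    have hE1 := hE c ρ
    have hE2 := hE c' ρ'
    rcases mod_split (by omega) h hle (by omega) with ⟨h1, h2⟩ | ⟨h1, h2⟩ | ⟨h1, h2⟩
    · rcases Nat.le_total c c' with hcc | hcc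
      · obtain ⟨d, rfl⟩ := Nat.exists_eq_add_of_le hcc
        by_contra hcon
        refine ha c d ρ ρ' hc' (by omega) hρ hρ' ?_ (by omega) h2
        rintro ⟨rfl, rfl⟩
        exact hcon ⟨rfl, rfl⟩
      · obtain ⟨d, rfl⟩ := Nat.exists_eq_add_of_le hcc
        by_contra hcon
        refine ha c' d ρ' ρ hc (by omega) hρ' hρ ?_ (by omega) h2.symm
        rintro ⟨rfl, rfl⟩
        exact hcon ⟨rfl, rfl⟩
    · exfalso
      exact hb c c' (q + c' - c) ρ ρ' hc hc' (by omega) (by omega) hρ hρ' (by omega) h2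
    · omega
  intro c c' ρ ρ' hc hc' hρ hρ' h
  rcases Nat.le_total (c' + E c' ρ') (c + E c ρ) with hle | hle
  · exact key c c' ρ ρ' hc hc' hρ hρ' hle h
  · have := key c' c ρ' ρ hc' hc hρ' hρ hle h.symm
    exact ⟨this.1.symm, this.2.symm⟩

/-- injectivity, slope two -/
theorem inj_two (hq : 4 ≤ q) (A E : ℕ → ℕ → ℕ) (hE : ∀ c ρ, E c ρ ≤ 4)
    (ha : ∀ c d ρ ρ', c + d < q → d ≤ 2 → ρ < 4 → ρ' < 4 → ¬ (d = 0 ∧ ρ = ρ') →
      E c ρ = 2 * d + E (c + d) ρ' → A c ρ % 4 = A (c + d) ρ' % 4 → False)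
    (hb : ∀ c c' g1 g2 ρ ρ', c < q → c' < q → q + 2 * c' + g2 = 2 * c + g1 → g1 ≤ 4 →
      g2 ≤ 4 → (g1 = 0 ∨ g2 = 0) → ρ < 4 → ρ' < 4 →
      E c ρ + g2 = g1 + E c' ρ' → (A c ρ + 1) % 4 = A c' ρ' % 4 → False)
    (hd : ∀ c c' w ρ ρ', c < q → c' < q → q + c' = c + w → w ≤ 2 → ρ < 4 → ρ' < 4 →
      E c ρ = 2 * w + E c' ρ' → (A c ρ + 2) % 4 = A c' ρ' % 4 → False) :
    ∀ c c' ρ ρ', c < q → c' < q → ρ < 4 → ρ' < 4 →
      A c ρ * q + (2 * c + E c ρ) ≡ A c' ρ' * q + (2 * c' + E c' ρ') [MOD 4 * q] →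
      c = c' ∧ ρ = ρ' := by
  have key : ∀ c c' ρ ρ', c < q → c' < q → ρ < 4 → ρ' < 4 →
      2 * c' + E c' ρ' ≤ 2 * c + E c ρ →
      A c ρ * q + (2 * c + E c ρ) ≡ A c' ρ' * q + (2 * c' + E c' ρ') [MOD 4 * q] →
      c = c' ∧ ρ = ρ' := by
    intro c c' ρ ρ' hc hc' hρ hρ' hle h
    have hE1 := hE c ρ
    have hE2 := hE c' ρ'
    rcases mod_split (by omega) h hle (by omega) with ⟨h1, h2⟩ | ⟨h1, h2⟩ | ⟨h1, h2⟩
    · rcases Nat.le_total c c' with hcc | hcc
      · obtain ⟨d, rfl⟩ := Nat.exists_eq_add_of_le hcc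
        by_contra hcon
        refine ha c d ρ ρ' hc' (by omega) hρ hρ' ?_ (by omega) h2
        rintro ⟨rfl, rfl⟩
        exact hcon ⟨rfl, rfl⟩
      · obtain ⟨d, rfl⟩ := Nat.exists_eq_add_of_le hcc
        by_contra hcon
        refine ha c' d ρ' ρ hc (by omega) hρ' hρ ?_ (by omega) h2.symm
        rintro ⟨rfl, rfl⟩
        exact hcon ⟨rfl, rfl⟩
    · exfalso
      rcases Nat.le_total (2 * c) (q + 2 * c') with h3 | h3
      · exact hb c c' (q + 2 * c' - 2 * c) 0 ρ ρ' hc hc' (by omega) (by omega) (by omega)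
          (Or.inr rfl) hρ hρ' (by omega) h2
      · exact hb c c' 0 (2 * c - (q + 2 * c')) ρ ρ' hc hc' (by omega) (by omega) (by omega)
          (Or.inl rfl) hρ hρ' (by omega) h2
    · exfalso
      exact hd c c' (q + c' - c) ρ ρ' hc hc' (by omega) (by omega) hρ hρ' (by omega) h2
  intro c c' ρ ρ' hc hc' hρ hρ' h
  rcases Nat.le_total (2 * c' + E c' ρ') (2 * c + E c ρ) with hle | hle
  · exact key c c' ρ ρ' hc hc' hρ hρ' hle h
  · have := key c' c ρ' ρ hc' hc hρ' hρ hle h.symm
    exact ⟨this.1.symm, this.2.symm⟩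

end

/-! ### regions -/

/-- the possible pairs of regions at bounded distance -/
structure Regions (q : ℕ) where
  reg : ℕ → ℕ
  zero : ∀ c, reg c = 0 ↔ c = 0
  pc : ℕ → List (ℕ × ℕ)
  hc : ∀ c d, d ≤ 4 → c + d < q → (reg c, reg (c + d)) ∈ pc d
  pw : ℕ → List (ℕ × ℕ)
  hw : ∀ c c' w, w ≤ 4 → c < q → c' < q → q + c' = c + w → (reg c, reg c') ∈ pw w
  ph : ℕ → ℕ → List (ℕ × ℕ)
  hh : ∀ c c' g1 g2, g1 ≤ 4 → g2 ≤ 4 → (g1 = 0 ∨ g2 = 0) → c < q → c' < q →
    q + 2 * c' + g2 = 2 * c + g1 → (reg c, reg c') ∈ ph g1 g2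

/-- a table: region, row block -> (x, E), the diagonal is `x q + E - 1` -/
abbrev Tab := ℕ → ℕ → ℕ × ℕ

/-- lift of the symbol -/
def yv (Q : ℕ → ℕ → ℕ) (T : Tab) (r ρ : ℕ) : ℕ :=
  if r = 0 ∧ (T r ρ).2 = 1 then Q ρ ((ρ + (T r ρ).1) % 4) else 2 * ρ + (T r ρ).1

def all4 (p : ℕ → ℕ → Bool) : Bool :=
  (List.range 4).all fun ρ => (List.range 4).all fun ρ' => p ρ ρ'

theorem all4_spec {p : ℕ → ℕ → Bool} (h : all4 p = true) {ρ ρ' : ℕ} (hρ : ρ < 4)
    (hρ' : ρ' < 4) : p ρ ρ' = true := by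
  unfold all4 at h
  simp only [List.all_eq_true, List.mem_range] at h
  exact h ρ hρ ρ' hρ'

/-- the check of one transversal against the region structure -/
def chkT {q : ℕ} (R : Regions q) (Q : ℕ → ℕ → ℕ) (T : Tab) : Bool :=
  ((List.range 5).all fun d => (R.pc d).all fun p => all4 fun ρ ρ' =>
    (d == 0 && ρ == ρ') || !((T p.1 ρ).2 == d + (T p.2 ρ').2) ||
      !((ρ + (T p.1 ρ).1) % 4 == (ρ' + (T p.2 ρ').1) % 4)) &&
  ((List.range 5).all fun w => (R.pw w).all fun p => all4 fun ρ ρ' =>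
    !((T p.1 ρ).2 == w + (T p.2 ρ').2) ||
      !((ρ + (T p.1 ρ).1 + 1) % 4 == (ρ' + (T p.2 ρ').1) % 4)) &&
  ((List.range 3).all fun d => (R.pc d).all fun p => all4 fun ρ ρ' =>
    (d == 0 && ρ == ρ') || !((T p.1 ρ).2 == 2 * d + (T p.2 ρ').2) ||
      !(yv Q T p.1 ρ % 4 == yv Q T p.2 ρ' % 4)) &&
  ((List.range 5).all fun g1 => (List.range 5).all fun g2 => !(g1 == 0 || g2 == 0) ||
    (R.ph g1 g2).all fun p => all4 fun ρ ρ' =>
    !((T p.1 ρ).2 + g2 == g1 + (T p.2 ρ').2) ||
      !((yv Q T p.1 ρ + 1) % 4 == yv Q T p.2 ρ' % 4)) &&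
  ((List.range 3).all fun w => (R.pw w).all fun p => all4 fun ρ ρ' =>
    !((T p.1 ρ).2 == 2 * w + (T p.2 ρ').2) ||
      !((yv Q T p.1 ρ + 2) % 4 == yv Q T p.2 ρ' % 4))

/-- the transversal given by a table -/
def tf (q : ℕ) (reg : ℕ → ℕ) (T : Tab) (i : ZMod (4 * q)) : ZMod (4 * q) :=
  i + ((T (reg (i.val % q)) (i.val / q)).1 : ZMod (4 * q)) * q +
    ((T (reg (i.val % q)) (i.val / q)).2 : ZMod (4 * q)) - 1

theorem tf_trans {q : ℕ} (hq : 4 ≤ q) (R : Regions q) {Q : ℕ → ℕ → ℕ} {T : Tab}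
    (hE : ∀ r ρ, (T r ρ).2 ≤ 4) (h : chkT R Q T = true) :
    IsTrans (quadB q Q) (tf q R.reg T) := by
  classical
  have hq0 : 0 < q := by omega
  have hne : NeZero (4 * q) := ⟨by omega⟩
  unfold chkT at h
  simp only [Bool.and_eq_true, List.all_eq_true, List.mem_range] at h
  obtain ⟨⟨⟨⟨h1, h2⟩, h3⟩, h4⟩, h5⟩ := h
  have hdecomp : ∀ i : ZMod (4 * q), i = (((i.val / q) * q + i.val % q : ℕ) : ZMod (4 * q)) := by
    intro i
    rw [Nat.div_add_mod' i.val q]; simp
  constructor
  · -- columns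
    have hinj := inj_one hq (fun c ρ => ρ + (T (R.reg c) ρ).1) (fun c ρ => (T (R.reg c) ρ).2)
      (fun c ρ => hE _ _) ?_ ?_
    · intro i j hij
      have e : ∀ i : ZMod (4 * q), tf q R.reg T i + 1 =
          (((i.val / q + (T (R.reg (i.val % q)) (i.val / q)).1) * q +
            (i.val % q + (T (R.reg (i.val % q)) (i.val / q)).2) : ℕ) : ZMod (4 * q)) := by
        intro i
        have hi := hdecomp i
        unfold tf
        push_cast at hi ⊢
        linear_combination hi
      have h6 : tf q R.reg T i + 1 = tf q R.reg T j + 1 := by rw [hij]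
      rw [e, e] at h6
      have h7 := (ZMod.natCast_eq_natCast_iff _ _ _).1 h6
      have h8 := hinj (i.val % q) (j.val % q) (i.val / q) (j.val / q) (Nat.mod_lt _ hq0)
        (Nat.mod_lt _ hq0) (val_div_lt hq0 i) (val_div_lt hq0 j) h7
      exact eq_of_div_eq hq0 h8.1 h8.2
    · intro c d ρ ρ' hcd hd hρ hρ' hnot he hA
      have h6 := all4_spec (h1 d (by omega) _ (R.hc c d hd hcd)) hρ hρ'
      simp only [Bool.or_eq_true, Bool.and_eq_true, beq_iff_eq, Bool.not_eq_true',
        beq_eq_false_iff_ne] at h6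
      rcases h6 with (h6 | h6) | h6
      · exact hnot h6
      · exact h6 he
      · exact h6 hA
    · intro c c' w ρ ρ' hc hc' hw hw4 hρ hρ' he hA
      have h6 := all4_spec (h2 w (by omega) _ (R.hw c c' w hw4 hc hc' hw)) hρ hρ'
      simp only [Bool.or_eq_true, Bool.not_eq_true',
        beq_eq_false_iff_ne] at h6
      rcases h6 with h6 | h6
      · exact h6 he
      · exact h6 hA
  · -- symbols
    have hinj := inj_two hq (fun c ρ => yv Q T (R.reg c) ρ) (fun c ρ => (T (R.reg c) ρ).2)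
      (fun c ρ => hE _ _) ?_ ?_ ?_
    · intro i j hij
      have e : ∀ i : ZMod (4 * q), quadB q Q i (tf q R.reg T i) + 1 =
          ((yv Q T (R.reg (i.val % q)) (i.val / q) * q +
            (2 * (i.val % q) + (T (R.reg (i.val % q)) (i.val / q)).2) : ℕ) :
              ZMod (4 * q)) := by
        intro i
        have hi := hdecomp i
        have hρ := val_div_lt hq0 i
        generalize hρe : i.val / q = ρ at *
        by_cases hc : i.val % q = 0
        · -- special row
          have hr : R.reg (i.val % q) = 0 := (R.zero _).2 hc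
          rw [hr]
          have hf : tf q R.reg T i + 1 =
              (((ρ + (T 0 ρ).1) * q + (T 0 ρ).2 : ℕ) : ZMod (4 * q)) := by
            unfold tf
            rw [hr, hρe]
            rw [hc] at hi
            push_cast at hi ⊢
            linear_combination hi
          by_cases h1' : (T 0 ρ).2 = 1
          · -- in the subsquare
            have hf' : tf q R.reg T i = ((((ρ + (T 0 ρ).1) % 4) * q : ℕ) : ZMod (4 * q)) := by
              have e1 : tf q R.reg T i = (((ρ + (T 0 ρ).1) * q : ℕ) : ZMod (4 * q)) := by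
                rw [h1'] at hf
                push_cast at hf ⊢
                linear_combination hf
              rw [e1, ZMod.natCast_eq_natCast_iff]
              exact Nat.ModEq.mul_right' _ (Nat.mod_modEq _ _).symm
            have hlt : (ρ + (T 0 ρ).1) % 4 < 4 := Nat.mod_lt _ (by norm_num)
            have hmod : (tf q R.reg T i).val % q = 0 := by
              rw [hf', val_mulq hq0 hlt, Nat.mul_mod_left]
            have hdiv : (tf q R.reg T i).val / q = (ρ + (T 0 ρ).1) % 4 := by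
              rw [hf', val_mulq hq0 hlt, Nat.mul_div_cancel _ hq0]
            unfold quadB yv
            rw [if_pos ⟨hc, hmod⟩, hdiv, hρe, if_pos ⟨rfl, h1'⟩, h1', hc]
            push_cast; ring
          · -- outside
            have hmod : (tf q R.reg T i).val % q ≠ 0 := by
              intro hcon
              -- the value of `f i + 1`
              have h9 : (tf q R.reg T i + 1).val % q = 1 := by
                rw [val_add_mod hq0, Nat.add_mod, hcon, zero_add, Nat.mod_mod]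
                have : (1 : ZMod (4 * q)).val = 1 := by
                  have : Fact (1 < 4 * q) := ⟨by omega⟩
                  exact ZMod.val_one _
                rw [this, Nat.mod_eq_of_lt (by omega)]
              rw [hf, ZMod.val_natCast, Nat.mod_mod_of_dvd _ (Dvd.intro_left 4 rfl),
                Nat.add_comm, Nat.add_mul_mod_self_right] at h9
              have h10 := hE 0 ρ
              rcases Nat.lt_or_ge (T 0 ρ).2 q with h11 | h11
              · rw [Nat.mod_eq_of_lt h11] at h9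
                exact h1' h9
              · have : (T 0 ρ).2 = q := by omega
                rw [this, Nat.mod_self] at h9
                omega
            unfold quadB yv
            rw [if_neg (fun h => hmod h.2), if_neg (fun h => h1' h.2), hc]
            have e2 : i + tf q R.reg T i + 1 = i + (tf q R.reg T i + 1) := by ring
            rw [e2, hf]
            rw [hc] at hi
            push_cast at hi ⊢
            linear_combination hi
        · have hr : R.reg (i.val % q) ≠ 0 := fun h => hc ((R.zero _).1 h)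
          unfold quadB yv tf
          rw [if_neg (fun h => hc h.1), if_neg (fun h => hr h.1), hρe]
          push_cast at hi ⊢
          linear_combination 2 * hi
      have h6 : quadB q Q i (tf q R.reg T i) + 1 = quadB q Q j (tf q R.reg T j) + 1 := by
        simp only at hij
        rw [hij]
      rw [e, e] at h6
      have h7 := (ZMod.natCast_eq_natCast_iff _ _ _).1 h6
      have h8 := hinj (i.val % q) (j.val % q) (i.val / q) (j.val / q) (Nat.mod_lt _ hq0)
        (Nat.mod_lt _ hq0) (val_div_lt hq0 i) (val_div_lt hq0 j) h7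
      exact eq_of_div_eq hq0 h8.1 h8.2
    · intro c d ρ ρ' hcd hd hρ hρ' hnot he hA
      have h6 := all4_spec (h3 d (by omega) _ (R.hc c d (by omega) hcd)) hρ hρ'
      simp only [Bool.or_eq_true, Bool.and_eq_true, beq_iff_eq, Bool.not_eq_true',
        beq_eq_false_iff_ne] at h6
      rcases h6 with (h6 | h6) | h6
      · exact hnot h6
      · exact h6 he
      · exact h6 hA
    · intro c c' g1 g2 ρ ρ' hc hc' hg hg1 hg2 hor hρ hρ' he hA
      have h6 := h4 g1 (by omega) g2 (by omega)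
      rw [Bool.or_eq_true] at h6
      rcases h6 with h6 | h6
      · simp only [Bool.not_eq_true', Bool.or_eq_false_iff, beq_eq_false_iff_ne] at h6
        rcases hor with h7 | h7
        · exact h6.1 h7
        · exact h6.2 h7
      · rw [List.all_eq_true] at h6
        have h7 := all4_spec (h6 _ (R.hh c c' g1 g2 hg1 hg2 hor hc hc' hg)) hρ hρ'
        simp only [Bool.or_eq_true, Bool.not_eq_true', beq_eq_false_iff_ne] at h7
        rcases h7 with h7 | h7
        · exact h7 he
        · exact h7 hA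
    · intro c c' w ρ ρ' hc hc' hw hw2 hρ hρ' he hA
      have h6 := all4_spec (h5 w (by omega) _ (R.hw c c' w (by omega) hc hc' hw)) hρ hρ'
      simp only [Bool.or_eq_true, Bool.not_eq_true', beq_eq_false_iff_ne] at h6
      rcases h6 with h6 | h6
      · exact h6 he
      · exact h6 hA

end Pool.Agent.Hhelper79.LT
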