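import Mathlib
import Pool.Agent.Hhelper79.LT.QTrans

set_option autoImplicit false

/-!
`n = 4 q`: from tables to `Attains (4 q) (4 j + τ)`.
-/

namespace Pool.Agent.Hhelper79.LT

open Finset

/-- two tables are disjoint -/
def chkD (rmax : ℕ) (T T' : Tab) : Bool :=
  (List.range rmax).all fun r => (List.range 4).all fun ρ =>
    Nat.blt (T r ρ).2 ((T' r ρ).2 + 4) && Nat.blt (T' r ρ).2 ((T r ρ).2 + 4) &&
      (!((T r ρ).1 % 4 == (T' r ρ).1 % 4) || !((T r ρ).2 == (T' r ρ).2))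

/-- the diagonal `x q + E - 1` modulo `2 q` -/
theorem diag_mod {q : ℕ} (hq : 4 ≤ q) {x E : ℕ} (hx : x < 4) (hE : E ≤ 4) :
    (x * q + E + (2 * q - 1)) % (2 * q) =
      if x % 2 = 0 then (if E = 0 then 2 * q - 1 else E - 1) else q + E - 1 := by
  interval_cases x
  · rw [if_pos (by norm_num)]
    split_ifs with h
    · subst h
      rw [Nat.mod_eq_of_lt (by omega)]; omega
    · rw [show 0 * q + E + (2 * q - 1) = (E - 1) + 2 * q by omega, Nat.add_mod_right,
        Nat.mod_eq_of_lt (by omega)]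
  · rw [if_neg (by norm_num), show 1 * q + E + (2 * q - 1) = (q + E - 1) + 2 * q by omega,
      Nat.add_mod_right, Nat.mod_eq_of_lt (by omega)]
  · rw [if_pos (by norm_num)]
    split_ifs with h
    · subst h
      rw [show 2 * q + 0 + (2 * q - 1) = (2 * q - 1) + 2 * q by omega, Nat.add_mod_right,
        Nat.mod_eq_of_lt (by omega)]
    · rw [show 2 * q + E + (2 * q - 1) = ((E - 1) + 2 * q) + 2 * q by omega, Nat.add_mod_right,
        Nat.add_mod_right, Nat.mod_eq_of_lt (by omega)]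
  · rw [if_neg (by norm_num),
      show 3 * q + E + (2 * q - 1) = ((q + E - 1) + 2 * q) + 2 * q by omega,
      Nat.add_mod_right, Nat.add_mod_right, Nat.mod_eq_of_lt (by omega)]

theorem quad_attains_gen {q τ rmax : ℕ} (hq : 4 ≤ q) (R : Regions q)
    (hR : ∀ c, R.reg c < rmax)
    {Q : ℕ → ℕ → ℕ} (hQ : Latin4 Q) {H : List (ℕ × ℕ)} (hlen : H.length = τ)
    (hH : chkHits Q H = true) (hH4 : ∀ x ∈ H, x.2 < 4) (Ts : Fin τ → Tab)
    (hE : ∀ k r ρ, (Ts k r ρ).2 ≤ 4) (hT : ∀ k, chkT R Q (Ts k) = true)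
    (hD : ∀ k l, k < l → chkD rmax (Ts k) (Ts l) = true)
    (U : Finset ℕ) (hUlt : ∀ u ∈ U, u + 1 < 2 * q)
    (hUsep : ∀ u ∈ U, ∀ v ∈ U, u < v → u + 2 ≤ v)
    (hU0 : ∀ u ∈ U, u ≠ 0 ∧ u ≠ q ∧ u + 1 ≠ q)
    (hav : ∀ k, ∀ r < rmax, ∀ ρ < 4, ∀ u ∈ U,
      ((Ts k r ρ).1 * q + (Ts k r ρ).2 + (2 * q - 1)) % (2 * q) ≠ u ∧
      ((Ts k r ρ).1 * q + (Ts k r ρ).2 + (2 * q - 1)) % (2 * q) ≠ u + 1)
    {j : ℕ} (hj : j ≤ U.card) :
    Attains (4 * q) (4 * j + τ) := by
  classical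
  have hq0 : 0 < q := by omega
  have hne : NeZero (4 * q) := ⟨by omega⟩
  have hn : 4 * q = 2 * (2 * q) := by ring
  have hbase : Base (4 * q) (2 * q) (quadB q Q) (castSet (4 * q) U) := by
    refine base_of_nat hn (quadB_latin hq0 hQ) hUlt hUsep ?_
    intro u hu i c hor
    obtain ⟨hu0, huq, huq'⟩ := hU0 u hu
    unfold quadB
    rw [if_neg]
    rintro ⟨hi, hc⟩
    have h1 : (c - i).val % q = 0 := by
      have h2 : (i + (c - i)).val % q = (i.val + (c - i).val) % q := val_add_mod hq0 _ _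
      rw [show i + (c - i) = c by ring, hc, Nat.add_mod, hi, zero_add, Nat.mod_mod] at h2
      exact h2.symm
    have h2 : (c - i).val % (2 * q) % q = 0 := by
      rw [Nat.mod_mod_of_dvd _ (Dvd.intro_left 2 rfl)]; exact h1
    have h3 : (c - i).val % (2 * q) < 2 * q := Nat.mod_lt _ (by omega)
    obtain ⟨k, hk⟩ := Nat.dvd_of_mod_eq_zero h2
    have hk2 : k < 2 := by
      by_contra hcon
      push Not at hcon
      have : q * 2 ≤ q * k := Nat.mul_le_mul_left q hcon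
      omega
    interval_cases k
    · rw [hk] at hor; omega
    · rw [hk] at hor; omega
  have hcard : (castSet (4 * q) U).card = U.card :=
    card_castSet hn (fun u hu => by have := hUlt u hu; omega)
  have hentryD : ∀ k l, k < l → ∀ c ρ, ρ < 4 →
      (Ts k (R.reg c) ρ).2 < (Ts l (R.reg c) ρ).2 + 4 ∧
      (Ts l (R.reg c) ρ).2 < (Ts k (R.reg c) ρ).2 + 4 ∧
      ¬ ((Ts k (R.reg c) ρ).1 % 4 = (Ts l (R.reg c) ρ).1 % 4 ∧
        (Ts k (R.reg c) ρ).2 = (Ts l (R.reg c) ρ).2) := by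
    intro k l hkl c ρ hρ
    have h1 := hD k l hkl
    unfold chkD at h1
    simp only [List.all_eq_true, List.mem_range] at h1
    have h2 := h1 (R.reg c) (hR c) ρ hρ
    simp only [Bool.and_eq_true, Bool.or_eq_true, Bool.not_eq_true', beq_eq_false_iff_ne,
      Nat.blt_eq] at h2
    refine ⟨h2.1.1, h2.1.2, ?_⟩
    rintro ⟨e1, e2⟩
    rcases h2.2 with h3 | h3
    · exact h3 e1
    · exact h3 e2
  have hdis : ∀ k l, k < l → ∀ i, tf q R.reg (Ts k) i ≠ tf q R.reg (Ts l) i := by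
    intro k l hkl i h
    obtain ⟨h1, h2, h3⟩ := hentryD k l hkl (i.val % q) (i.val / q) (val_div_lt hq0 i)
    have e : (((Ts k (R.reg (i.val % q)) (i.val / q)).1 * q +
        (Ts k (R.reg (i.val % q)) (i.val / q)).2 : ℕ) : ZMod (4 * q)) =
        (((Ts l (R.reg (i.val % q)) (i.val / q)).1 * q +
        (Ts l (R.reg (i.val % q)) (i.val / q)).2 : ℕ) : ZMod (4 * q)) := by
      unfold tf at h
      push_cast
      linear_combination h
    have e2 := (ZMod.natCast_eq_natCast_iff _ _ _).1 e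
    rcases Nat.le_total (Ts l (R.reg (i.val % q)) (i.val / q)).2
      (Ts k (R.reg (i.val % q)) (i.val / q)).2 with hle | hle
    · rcases mod_split hq0 e2 hle (by omega) with ⟨a, b⟩ | ⟨a, b⟩ | ⟨a, b⟩
      · exact h3 ⟨b, a⟩
      · omega
      · omega
    · rcases mod_split hq0 e2.symm hle (by omega) with ⟨a, b⟩ | ⟨a, b⟩ | ⟨a, b⟩
      · exact h3 ⟨b.symm, a.symm⟩
      · omega
      · omega
  refine assemble_le hn (by omega) hbase (quadH q H) ?_ (quad_hits hq0 hH hH4) (κ := Fin τ)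
    (by simp) (fun k => tf q R.reg (Ts k)) (fun k => tf_trans hq R (hE k) (hT k)) ?_ ?_
    (by rw [hcard]; exact hj)
  · exact (card_quadH q H).trans hlen.le
  · intro k l hkl i
    rcases lt_or_gt_of_ne hkl with h | h
    · exact hdis k l h i
    · exact (hdis l k h i).symm
  · intro k i t ht hb
    obtain ⟨u, hu, rfl⟩ := Finset.mem_image.1 ht
    have hu1 := hUlt u hu
    rw [blk_iff hn, Nat.mod_eq_of_lt (show u < 2 * q by omega),
      Nat.mod_eq_of_lt (show u + 1 < 2 * q by omega)] at hb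
    have h2 := hav k _ (hR (i.val % q)) _ (val_div_lt hq0 i) u hu
    have hdiag : tf q R.reg (Ts k) i - i =
        (((Ts k (R.reg (i.val % q)) (i.val / q)).1 * q +
          (Ts k (R.reg (i.val % q)) (i.val / q)).2 + (4 * q - 1) : ℕ) : ZMod (4 * q)) := by
      have h4 : ((4 * q - 1 : ℕ) : ZMod (4 * q)) = -1 := by
        rw [Nat.cast_sub (by omega), ZMod.natCast_self]; simp
      unfold tf
      push_cast
      rw [h4]
      ring
    simp only [hdiag] at hb
    have hv : ∀ w : ℕ, ((w + (4 * q - 1) : ℕ) : ZMod (4 * q)).val % (2 * q) =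
        (w + (2 * q - 1)) % (2 * q) := by
      intro w
      rw [ZMod.val_natCast, Nat.mod_mod_of_dvd _ ⟨2, by ring⟩,
        show w + (4 * q - 1) = (w + (2 * q - 1)) + 2 * q by omega, Nat.add_mod_right]
    rw [hv] at hb
    rcases hb with hb | hb
    · exact h2.1 hb
    · exact h2.2 hb

/-- the table uses only the diagonals of the blocks `< s0` and `p`; `q = 2 p + δ` -/
def chkA (rmax δ s0 : ℕ) (T : Tab) : Bool :=
  (List.range rmax).all fun r => (List.range 4).all fun ρ =>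
    ((T r ρ).1 == 0 || (T r ρ).1 == 2) && Nat.ble 1 (T r ρ).2 && Nat.ble (T r ρ).2 (2 * s0) ||
      ((T r ρ).1 == 1 || (T r ρ).1 == 3) && Nat.ble 1 (δ + (T r ρ).2) &&
        Nat.ble (δ + (T r ρ).2) 2

/-- starting points of the free blocks -/
def freeU (q p s0 : ℕ) : Finset ℕ := ((Finset.Ico s0 q).erase p).image (fun s => 2 * s)

theorem card_freeU {q p s0 : ℕ} (h1 : s0 ≤ p) (h2 : p < q) : (freeU q p s0).card = q - s0 - 1 := by
  unfold freeU
  rw [Finset.card_image_of_injective _ (fun a b h => by simpa using h),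
    Finset.card_erase_of_mem (Finset.mem_Ico.2 ⟨h1, h2⟩), Nat.card_Ico]

theorem quad_attains {q p δ s0 τ rmax : ℕ} (hq : 4 ≤ q) (hδ : δ ≤ 1) (hp : q = 2 * p + δ)
    (hs0 : 1 ≤ s0) (hsp : s0 ≤ p) (R : Regions q) (hR : ∀ c, R.reg c < rmax)
    {Q : ℕ → ℕ → ℕ} (hQ : Latin4 Q) {H : List (ℕ × ℕ)} (hlen : H.length = τ)
    (hH : chkHits Q H = true) (hH4 : ∀ x ∈ H, x.2 < 4) (Ts : Fin τ → Tab)
    (hE : ∀ k r ρ, (Ts k r ρ).2 ≤ 4) (hT : ∀ k, chkT R Q (Ts k) = true)
    (hD : ∀ k l, k < l → chkD rmax (Ts k) (Ts l) = true)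
    (hA : ∀ k, chkA rmax δ s0 (Ts k) = true) {j : ℕ} (hj : j + s0 + 1 ≤ q) :
    Attains (4 * q) (4 * j + τ) := by
  refine quad_attains_gen hq R hR hQ hlen hH hH4 Ts hE hT hD (freeU q p s0) ?_ ?_ ?_ ?_
    (by rw [card_freeU hsp (by omega)]; omega)
  · intro u hu
    obtain ⟨s, hs, rfl⟩ := Finset.mem_image.1 hu
    have := Finset.mem_Ico.1 (Finset.mem_of_mem_erase hs)
    omega
  · intro u hu v hv huv
    obtain ⟨s, hs, rfl⟩ := Finset.mem_image.1 hu
    obtain ⟨s', hs', rfl⟩ := Finset.mem_image.1 hv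
    omega
  · intro u hu
    obtain ⟨s, hs, rfl⟩ := Finset.mem_image.1 hu
    have h1 := Finset.mem_Ico.1 (Finset.mem_of_mem_erase hs)
    have h2 := Finset.ne_of_mem_erase hs
    omega
  · intro k r hr ρ hρ u hu
    obtain ⟨s, hs, rfl⟩ := Finset.mem_image.1 hu
    have hs1 := Finset.mem_Ico.1 (Finset.mem_of_mem_erase hs)
    have hs2 := Finset.ne_of_mem_erase hs
    have h1 := hA k
    unfold chkA at h1
    simp only [List.all_eq_true, List.mem_range] at h1
    have h2 := h1 r hr ρ hρ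
    simp only [Bool.and_eq_true, Bool.or_eq_true, beq_iff_eq, Nat.ble_eq] at h2
    have h3 := hE k r ρ
    generalize (Ts k r ρ).2 = E at *
    generalize (Ts k r ρ).1 = x at *
    have hx : x < 4 := by omega
    rw [diag_mod hq hx h3]
    split_ifs <;> omega

/-- the table uses only the diagonals `-1, 0, 1` and `q - 1, q, q + 1` modulo `2 q` -/
def chkB (rmax : ℕ) (T : Tab) : Bool :=
  (List.range rmax).all fun r => (List.range 4).all fun ρ =>
    Nat.ble (T r ρ).1 3 && Nat.ble (T r ρ).2 2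

/-- starting points of the free blocks, `q = 2 p + 1` -/
def freeV (q p : ℕ) : Finset ℕ :=
  ((Finset.range (p - 1)).image (fun s => 2 * s + 2)) ∪
    ((Finset.range (p - 1)).image (fun s => 2 * s + 2 + q))

theorem card_freeV {q p : ℕ} (hp : q = 2 * p + 1) : (freeV q p).card = 2 * (p - 1) := by
  unfold freeV
  rw [Finset.card_union_of_disjoint, Finset.card_image_of_injective _ (fun a b h => by
    simpa using h), Finset.card_image_of_injective _ (fun a b h => by simpa using h),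
    Finset.card_range]
  · ring
  · rw [Finset.disjoint_left]
    intro a ha hb
    obtain ⟨s, hs, rfl⟩ := Finset.mem_image.1 ha
    obtain ⟨s', hs', h⟩ := Finset.mem_image.1 hb
    omega

theorem quad_attains_odd {q p τ rmax : ℕ} (hq : 4 ≤ q) (hp : q = 2 * p + 1)
    (R : Regions q) (hR : ∀ c, R.reg c < rmax)
    {Q : ℕ → ℕ → ℕ} (hQ : Latin4 Q) {H : List (ℕ × ℕ)} (hlen : H.length = τ)
    (hH : chkHits Q H = true) (hH4 : ∀ x ∈ H, x.2 < 4) (Ts : Fin τ → Tab)
    (hE : ∀ k r ρ, (Ts k r ρ).2 ≤ 4) (hT : ∀ k, chkT R Q (Ts k) = true)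
    (hD : ∀ k l, k < l → chkD rmax (Ts k) (Ts l) = true)
    (hA : ∀ k, chkB rmax (Ts k) = true) {j : ℕ} (hj : j + 3 ≤ q) :
    Attains (4 * q) (4 * j + τ) := by
  have hmem : ∀ u ∈ freeV q p, ∃ s, s < p - 1 ∧ (u = 2 * s + 2 ∨ u = 2 * s + 2 + q) := by
    intro u hu
    rcases Finset.mem_union.1 hu with h | h
    · obtain ⟨s, hs, rfl⟩ := Finset.mem_image.1 h
      exact ⟨s, Finset.mem_range.1 hs, Or.inl rfl⟩
    · obtain ⟨s, hs, rfl⟩ := Finset.mem_image.1 h
      exact ⟨s, Finset.mem_range.1 hs, Or.inr rfl⟩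
  refine quad_attains_gen hq R hR hQ hlen hH hH4 Ts hE hT hD (freeV q p) ?_ ?_ ?_ ?_
    (by rw [card_freeV hp]; omega)
  · intro u hu
    obtain ⟨s, hs, h | h⟩ := hmem u hu <;> omega
  · intro u hu v hv huv
    obtain ⟨s, hs, h | h⟩ := hmem u hu <;> obtain ⟨s', hs', h' | h'⟩ := hmem v hv <;> omega
  · intro u hu
    obtain ⟨s, hs, h | h⟩ := hmem u hu <;> omega
  · intro k r hr ρ hρ u hu
    have h1 := hA k
    unfold chkB at h1
    simp only [List.all_eq_true, List.mem_range] at h1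
    have h2 := h1 r hr ρ hρ
    simp only [Bool.and_eq_true, Nat.ble_eq] at h2
    have h3 := hE k r ρ
    generalize (Ts k r ρ).2 = E at *
    generalize (Ts k r ρ).1 = x at *
    have hx : x < 4 := by omega
    rw [diag_mod hq hx h3]
    obtain ⟨s, hs, h | h⟩ := hmem u hu <;> split_ifs <;> omega

end Pool.Agent.Hhelper79.LT
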