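import Mathlib
import Pool.Agent.Hhelper79.LT.QTrans

set_option autoImplicit false

/-!
The region structures used by the tables.
-/

namespace Pool.Agent.Hhelper79.LT


/-- region function -/
def evR (p c : ℕ) : ℕ := if c = 0 then 0 else if c < p then 1 else if c = p then 2 else 3

def evC : ℕ → List (ℕ × ℕ)
  | 0 => [(0, 0), (1, 1), (2, 2), (3, 3)]
  | 1 => [(0, 1), (1, 1), (1, 2), (2, 3), (3, 3)]
  | 2 => [(0, 1), (0, 2), (1, 1), (1, 2), (1, 3), (2, 3), (3, 3)]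
  | 3 => [(0, 1), (0, 2), (0, 3), (1, 1), (1, 2), (1, 3), (2, 3), (3, 3)]
  | 4 => [(0, 1), (0, 2), (0, 3), (1, 1), (1, 2), (1, 3), (2, 3), (3, 3)]
  | _ => []

def evW : ℕ → List (ℕ × ℕ)
  | 0 => []
  | 1 => [(3, 0)]
  | 2 => [(2, 0), (3, 0), (3, 1)]
  | 3 => [(1, 0), (2, 0), (2, 1), (3, 0), (3, 1), (3, 2)]
  | 4 => [(0, 0), (1, 0), (1, 1), (2, 0), (2, 1), (2, 2), (3, 0), (3, 1), (3, 2), (3, 3)]
  | _ => []

def evH : ℕ → ℕ → List (ℕ × ℕ)
  | 0, 0 => [(2, 0), (3, 1)]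
  | 0, 1 => []
  | 0, 2 => [(3, 0), (3, 1)]
  | 0, 3 => []
  | 0, 4 => [(3, 0), (3, 1)]
  | 1, 0 => []
  | 2, 0 => [(1, 0), (2, 1), (3, 1), (3, 2)]
  | 3, 0 => []
  | 4, 0 => [(0, 0), (1, 0), (1, 1), (2, 1), (2, 2), (3, 1), (3, 2), (3, 3)]
  | _, _ => []

theorem evR_zero {p : ℕ} (hp : 2 ≤ p) (c : ℕ) : evR p c = 0 ↔ c = 0 := by
  unfold evR
  split_ifs <;> simp_all <;> omega

theorem ev_hc {q p : ℕ} (hp : 2 ≤ p) (hq : q = 2 * p) : ∀ c d, d ≤ 4 → c + d < q →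
    (evR p c, evR p (c + d)) ∈ evC d := by
  intro c d hd h
  interval_cases d <;> unfold evR evC <;> split_ifs <;>
    first | (exfalso; omega) | decide

theorem ev_hw {q p : ℕ} (hp : 2 ≤ p) (hq : q = 2 * p) : ∀ c c' w, w ≤ 4 → c < q → c' < q → q + c' = c + w →
    (evR p c, evR p c') ∈ evW w := by
  intro c c' w hw hc hc' h
  interval_cases w <;> unfold evR evW <;> split_ifs <;>
    first | (exfalso; omega) | decide

theorem ev_hh {q p : ℕ} (hp : 2 ≤ p) (hq : q = 2 * p) : ∀ c c' g1 g2, g1 ≤ 4 → g2 ≤ 4 → (g1 = 0 ∨ g2 = 0) →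
    c < q → c' < q → q + 2 * c' + g2 = 2 * c + g1 →
    (evR p c, evR p c') ∈ evH g1 g2 := by
  intro c c' g1 g2 h1 h2 hor hc hc' h
  rcases hor with rfl | rfl
  · interval_cases g2 <;> unfold evR evH <;> split_ifs <;>
      first | (exfalso; omega) | decide
  · interval_cases g1 <;> unfold evR evH <;> split_ifs <;>
      first | (exfalso; omega) | decide

/-- the region structure -/
def evReg (q p : ℕ) (hp : 2 ≤ p) (hq : q = 2 * p) : Regions q where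
  reg := evR p
  zero := evR_zero (by omega)
  pc := evC
  hc := ev_hc hp hq
  pw := evW
  hw := ev_hw hp hq
  ph := evH
  hh := ev_hh hp hq

/-- region function -/
def odR (p c : ℕ) : ℕ := if c = 0 then 0 else if c < p then 1 else if c = p then 2 else 3

def odC : ℕ → List (ℕ × ℕ)
  | 0 => [(0, 0), (1, 1), (2, 2), (3, 3)]
  | 1 => [(0, 1), (1, 1), (1, 2), (2, 3), (3, 3)]
  | 2 => [(0, 1), (0, 2), (1, 1), (1, 2), (1, 3), (2, 3), (3, 3)]
  | 3 => [(0, 1), (0, 2), (0, 3), (1, 1), (1, 2), (1, 3), (2, 3), (3, 3)]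
  | 4 => [(0, 1), (0, 2), (0, 3), (1, 1), (1, 2), (1, 3), (2, 3), (3, 3)]
  | _ => []

def odW : ℕ → List (ℕ × ℕ)
  | 0 => []
  | 1 => [(3, 0)]
  | 2 => [(3, 0), (3, 1)]
  | 3 => [(2, 0), (3, 0), (3, 1), (3, 2)]
  | 4 => [(1, 0), (2, 0), (2, 1), (3, 0), (3, 1), (3, 2), (3, 3)]
  | _ => []

def odH : ℕ → ℕ → List (ℕ × ℕ)
  | 0, 0 => []
  | 0, 1 => [(3, 0), (3, 1)]
  | 0, 2 => []
  | 0, 3 => [(3, 0), (3, 1)]
  | 0, 4 => []
  | 1, 0 => [(2, 0), (3, 1), (3, 2)]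
  | 2, 0 => []
  | 3, 0 => [(1, 0), (2, 1), (3, 1), (3, 2), (3, 3)]
  | 4, 0 => []
  | _, _ => []

theorem odR_zero {p : ℕ} (hp : 2 ≤ p) (c : ℕ) : odR p c = 0 ↔ c = 0 := by
  unfold odR
  split_ifs <;> simp_all <;> omega

theorem od_hc {q p : ℕ} (hp : 2 ≤ p) (hq : q = 2 * p + 1) : ∀ c d, d ≤ 4 → c + d < q →
    (odR p c, odR p (c + d)) ∈ odC d := by
  intro c d hd h
  interval_cases d <;> unfold odR odC <;> split_ifs <;>
    first | (exfalso; omega) | decide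

theorem od_hw {q p : ℕ} (hp : 2 ≤ p) (hq : q = 2 * p + 1) : ∀ c c' w, w ≤ 4 → c < q → c' < q → q + c' = c + w →
    (odR p c, odR p c') ∈ odW w := by
  intro c c' w hw hc hc' h
  interval_cases w <;> unfold odR odW <;> split_ifs <;>
    first | (exfalso; omega) | decide

theorem od_hh {q p : ℕ} (hp : 2 ≤ p) (hq : q = 2 * p + 1) : ∀ c c' g1 g2, g1 ≤ 4 → g2 ≤ 4 → (g1 = 0 ∨ g2 = 0) →
    c < q → c' < q → q + 2 * c' + g2 = 2 * c + g1 →
    (odR p c, odR p c') ∈ odH g1 g2 := by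
  intro c c' g1 g2 h1 h2 hor hc hc' h
  rcases hor with rfl | rfl
  · interval_cases g2 <;> unfold odR odH <;> split_ifs <;>
      first | (exfalso; omega) | decide
  · interval_cases g1 <;> unfold odR odH <;> split_ifs <;>
      first | (exfalso; omega) | decide

/-- the region structure -/
def odReg (q p : ℕ) (hp : 2 ≤ p) (hq : q = 2 * p + 1) : Regions q where
  reg := odR p
  zero := odR_zero (by omega)
  pc := odC
  hc := od_hc hp hq
  pw := odW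
  hw := od_hw hp hq
  ph := odH
  hh := od_hh hp hq

/-- region function -/
def osR (p c : ℕ) : ℕ := if c = 0 then 0 else if c = 1 then 1 else if c < p - 1 then 2 else
  if c = p - 1 then 3 else if c = p then 4 else if c = p + 1 then 5 else 6

def osC : ℕ → List (ℕ × ℕ)
  | 0 => [(0, 0), (1, 1), (2, 2), (3, 3), (4, 4), (5, 5), (6, 6)]
  | 1 => [(0, 1), (1, 2), (1, 3), (2, 2), (2, 3), (3, 4), (4, 5), (5, 6), (6, 6)]
  | 2 => [(0, 2), (0, 3), (1, 2), (1, 3), (1, 4), (2, 2), (2, 3), (2, 4), (3, 5), (4, 6), (5, 6), (6, 6)]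
  | 3 => [(0, 2), (0, 3), (0, 4), (1, 2), (1, 3), (1, 4), (1, 5), (2, 2), (2, 3), (2, 4), (2, 5), (3, 6), (4, 6), (5, 6), (6, 6)]
  | 4 => [(0, 2), (0, 3), (0, 4), (0, 5), (1, 2), (1, 3), (1, 4), (1, 5), (1, 6), (2, 2), (2, 3), (2, 4), (2, 5), (2, 6), (3, 6), (4, 6), (5, 6), (6, 6)]
  | _ => []

def osW : ℕ → List (ℕ × ℕ)
  | 0 => []
  | 1 => [(6, 0)]
  | 2 => [(6, 0), (6, 1)]
  | 3 => [(5, 0), (6, 0), (6, 1), (6, 2), (6, 3)]
  | 4 => [(4, 0), (5, 0), (5, 1), (6, 0), (6, 1), (6, 2), (6, 3), (6, 4)]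
  | _ => []

def osH : ℕ → ℕ → List (ℕ × ℕ)
  | 0, 0 => []
  | 0, 1 => [(5, 0), (6, 1), (6, 2), (6, 3)]
  | 0, 2 => []
  | 0, 3 => [(6, 0), (6, 1), (6, 2)]
  | 0, 4 => []
  | 1, 0 => [(4, 0), (5, 1), (6, 2), (6, 3), (6, 4)]
  | 2, 0 => []
  | 3, 0 => [(3, 0), (4, 1), (5, 2), (5, 3), (6, 2), (6, 3), (6, 4), (6, 5)]
  | 4, 0 => []
  | _, _ => []

theorem osR_zero {p : ℕ} (hp : 3 ≤ p) (c : ℕ) : osR p c = 0 ↔ c = 0 := by
  unfold osR
  split_ifs <;> simp_all <;> omega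

theorem os_hc {q p : ℕ} (hp : 3 ≤ p) (hq : q = 2 * p + 1) : ∀ c d, d ≤ 4 → c + d < q →
    (osR p c, osR p (c + d)) ∈ osC d := by
  intro c d hd h
  interval_cases d <;> unfold osR osC <;> split_ifs <;>
    first | (exfalso; omega) | decide

theorem os_hw {q p : ℕ} (hp : 3 ≤ p) (hq : q = 2 * p + 1) : ∀ c c' w, w ≤ 4 → c < q → c' < q → q + c' = c + w →
    (osR p c, osR p c') ∈ osW w := by
  intro c c' w hw hc hc' h
  interval_cases w <;> unfold osR osW <;> split_ifs <;>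
    first | (exfalso; omega) | decide

theorem os_hh {q p : ℕ} (hp : 3 ≤ p) (hq : q = 2 * p + 1) : ∀ c c' g1 g2, g1 ≤ 4 → g2 ≤ 4 → (g1 = 0 ∨ g2 = 0) →
    c < q → c' < q → q + 2 * c' + g2 = 2 * c + g1 →
    (osR p c, osR p c') ∈ osH g1 g2 := by
  intro c c' g1 g2 h1 h2 hor hc hc' h
  rcases hor with rfl | rfl
  · interval_cases g2 <;> unfold osR osH <;> split_ifs <;>
      first | (exfalso; omega) | decide
  · interval_cases g1 <;> unfold osR osH <;> split_ifs <;>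
      first | (exfalso; omega) | decide

/-- the region structure -/
def osReg (q p : ℕ) (hp : 3 ≤ p) (hq : q = 2 * p + 1) : Regions q where
  reg := osR p
  zero := osR_zero (by omega)
  pc := osC
  hc := os_hc hp hq
  pw := osW
  hw := os_hw hp hq
  ph := osH
  hh := os_hh hp hq

end Pool.Agent.Hhelper79.LT
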