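import Mathlib
import Pool.Agent.Hhelper79.LT.QTrans

set_option autoImplicit false

/-!
More region structures.
-/

namespace Pool.Agent.Hhelper79.LT


/-- region function -/
def onR (p c : ℕ) : ℕ := if c = 0 then 0 else if c < p then 1 else if c = p then 2 else
  if c = p + 1 then 3 else 4

def onC : ℕ → List (ℕ × ℕ)
  | 0 => [(0, 0), (1, 1), (2, 2), (3, 3), (4, 4)]
  | 1 => [(0, 1), (1, 1), (1, 2), (2, 3), (3, 4), (4, 4)]
  | 2 => [(0, 1), (0, 2), (1, 1), (1, 2), (1, 3), (2, 4), (3, 4), (4, 4)]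
  | 3 => [(0, 1), (0, 2), (0, 3), (1, 1), (1, 2), (1, 3), (1, 4), (2, 4), (3, 4), (4, 4)]
  | 4 => [(0, 1), (0, 2), (0, 3), (0, 4), (1, 1), (1, 2), (1, 3), (1, 4), (2, 4), (3, 4), (4, 4)]
  | _ => []

def onW : ℕ → List (ℕ × ℕ)
  | 0 => []
  | 1 => [(4, 0)]
  | 2 => [(3, 0), (4, 0), (4, 1)]
  | 3 => [(2, 0), (3, 0), (3, 1), (4, 0), (4, 1), (4, 2)]
  | 4 => [(1, 0), (2, 0), (2, 1), (3, 0), (3, 1), (3, 2), (4, 0), (4, 1), (4, 2), (4, 3)]
  | _ => []

def onH : ℕ → ℕ → List (ℕ × ℕ)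
  | 0, 0 => []
  | 0, 1 => [(3, 0), (4, 1)]
  | 0, 2 => []
  | 0, 3 => [(4, 0), (4, 1)]
  | 0, 4 => []
  | 1, 0 => [(2, 0), (3, 1), (4, 1), (4, 2)]
  | 2, 0 => []
  | 3, 0 => [(1, 0), (2, 1), (3, 1), (3, 2), (4, 1), (4, 2), (4, 3)]
  | 4, 0 => []
  | _, _ => []

theorem onR_zero {p : ℕ} (hp : 2 ≤ p) (c : ℕ) : onR p c = 0 ↔ c = 0 := by
  unfold onR
  split_ifs <;> simp_all <;> omega

theorem on_hc {q p : ℕ} (hp : 2 ≤ p) (hq : q = 2 * p + 1) : ∀ c d, d ≤ 4 → c + d < q →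
    (onR p c, onR p (c + d)) ∈ onC d := by
  intro c d hd h
  interval_cases d <;> unfold onR onC <;> split_ifs <;>
    first | (exfalso; omega) | decide

theorem on_hw {q p : ℕ} (hp : 2 ≤ p) (hq : q = 2 * p + 1) : ∀ c c' w, w ≤ 4 → c < q → c' < q → q + c' = c + w →
    (onR p c, onR p c') ∈ onW w := by
  intro c c' w hw hc hc' h
  interval_cases w <;> unfold onR onW <;> split_ifs <;>
    first | (exfalso; omega) | decide

theorem on_hh {q p : ℕ} (hp : 2 ≤ p) (hq : q = 2 * p + 1) : ∀ c c' g1 g2, g1 ≤ 4 → g2 ≤ 4 → (g1 = 0 ∨ g2 = 0) →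
    c < q → c' < q → q + 2 * c' + g2 = 2 * c + g1 →
    (onR p c, onR p c') ∈ onH g1 g2 := by
  intro c c' g1 g2 h1 h2 hor hc hc' h
  rcases hor with rfl | rfl
  · interval_cases g2 <;> unfold onR onH <;> split_ifs <;>
      first | (exfalso; omega) | decide
  · interval_cases g1 <;> unfold onR onH <;> split_ifs <;>
      first | (exfalso; omega) | decide

/-- the region structure -/
def onReg (q p : ℕ) (hp : 2 ≤ p) (hq : q = 2 * p + 1) : Regions q where
  reg := onR p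
  zero := onR_zero (by omega)
  pc := onC
  hc := on_hc hp hq
  pw := onW
  hw := on_hw hp hq
  ph := onH
  hh := on_hh hp hq

/-- region function for `q = 5` -/
def fvR (c : ℕ) : ℕ := min c 4

def fvC : ℕ → List (ℕ × ℕ)
  | 0 => [(0, 0), (1, 1), (2, 2), (3, 3), (4, 4)]
  | 1 => [(0, 1), (1, 2), (2, 3), (3, 4)]
  | 2 => [(0, 2), (1, 3), (2, 4)]
  | 3 => [(0, 3), (1, 4)]
  | 4 => [(0, 4)]
  | _ => []

def fvW : ℕ → List (ℕ × ℕ)
  | 0 => []
  | 1 => [(4, 0)]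
  | 2 => [(3, 0), (4, 1)]
  | 3 => [(2, 0), (3, 1), (4, 2)]
  | 4 => [(1, 0), (2, 1), (3, 2), (4, 3)]
  | _ => []

def fvH : ℕ → ℕ → List (ℕ × ℕ)
  | 0, 0 => []
  | 0, 1 => [(3, 0), (4, 1)]
  | 0, 2 => []
  | 0, 3 => [(4, 0)]
  | 0, 4 => []
  | 1, 0 => [(2, 0), (3, 1), (4, 2)]
  | 2, 0 => []
  | 3, 0 => [(1, 0), (2, 1), (3, 2), (4, 3)]
  | 4, 0 => []
  | _, _ => []

/-- the region structure for `q = 5` -/
def fvReg : Regions 5 where
  reg := fvR
  zero := by intro c; unfold fvR; omega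
  pc := fvC
  hc := by
    intro c d hd h
    have hc : c < 5 := by omega
    interval_cases d <;> interval_cases c <;> first | (exfalso; omega) | decide
  pw := fvW
  hw := by
    intro c c' w hw hc hc' h
    interval_cases w <;> interval_cases c <;> interval_cases c' <;>
      first | (exfalso; omega) | decide
  ph := fvH
  hh := by
    intro c c' g1 g2 h1 h2 hor hc hc' h
    interval_cases g1 <;> interval_cases g2 <;> interval_cases c <;> interval_cases c' <;>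
      first | (exfalso; omega) | decide

end Pool.Agent.Hhelper79.LT
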