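import Mathlib
import Pool.Agent.Hhelper79.LT.QBase
import Pool.Agent.Hhelper79.LT.QRegions
import Pool.Agent.Hhelper79.LT.QRegions2
import Pool.Agent.Hhelper79.LT.Four

set_option autoImplicit false

/-!
`n = 4 q`: the tables, and `Attains (4 q) m` for `m = 3 mod 4`, `m = 2 mod 4` (`m >= 6`) and
`m = 1 mod 4` (`m >= 9`).
-/

namespace Pool.Agent.Hhelper79.LT

/-- nested list to table -/
def tabOf (l : List (List (ℕ × ℕ))) : Tab := fun r ρ => (l.getD r []).getD ρ (0, 0)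

/-- nested list to square -/
def sqOf (l : List (List ℕ)) (a b : ℕ) : ℕ := (l.getD a []).getD b 0

theorem tabOf_le {l : List (List (ℕ × ℕ))}
    (h : (l.all fun r => r.all fun x => Nat.ble x.2 4) = true) (r ρ : ℕ) :
    (tabOf l r ρ).2 ≤ 4 := by
  simp only [List.all_eq_true, Nat.ble_eq] at h
  unfold tabOf
  rw [List.getD_eq_getElem?_getD, List.getD_eq_getElem?_getD]
  cases h1 : l[r]? with
  | none => simp
  | some row =>
    simp only [Option.getD_some]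
    cases h2 : row[ρ]? with
    | none => simp
    | some x =>
      simp only [Option.getD_some]
      exact h row (List.mem_of_getElem? h1) x (List.mem_of_getElem? h2)

/-- the check with explicit pair lists -/
def chkP (pc pw : ℕ → List (ℕ × ℕ)) (ph : ℕ → ℕ → List (ℕ × ℕ)) (Q : ℕ → ℕ → ℕ) (T : Tab) :
    Bool :=
  ((List.range 5).all fun d => (pc d).all fun p => all4 fun ρ ρ' =>
    (d == 0 && ρ == ρ') || !((T p.1 ρ).2 == d + (T p.2 ρ').2) ||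
      !((ρ + (T p.1 ρ).1) % 4 == (ρ' + (T p.2 ρ').1) % 4)) &&
  ((List.range 5).all fun w => (pw w).all fun p => all4 fun ρ ρ' =>
    !((T p.1 ρ).2 == w + (T p.2 ρ').2) ||
      !((ρ + (T p.1 ρ).1 + 1) % 4 == (ρ' + (T p.2 ρ').1) % 4)) &&
  ((List.range 3).all fun d => (pc d).all fun p => all4 fun ρ ρ' =>
    (d == 0 && ρ == ρ') || !((T p.1 ρ).2 == 2 * d + (T p.2 ρ').2) ||
      !(yv Q T p.1 ρ % 4 == yv Q T p.2 ρ' % 4)) &&
  ((List.range 5).all fun g1 => (List.range 5).all fun g2 => !(g1 == 0 || g2 == 0) ||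
    (ph g1 g2).all fun p => all4 fun ρ ρ' =>
    !((T p.1 ρ).2 + g2 == g1 + (T p.2 ρ').2) ||
      !((yv Q T p.1 ρ + 1) % 4 == yv Q T p.2 ρ' % 4)) &&
  ((List.range 3).all fun w => (pw w).all fun p => all4 fun ρ ρ' =>
    !((T p.1 ρ).2 == 2 * w + (T p.2 ρ').2) ||
      !((yv Q T p.1 ρ + 2) % 4 == yv Q T p.2 ρ' % 4))

theorem chkT_eq {q : ℕ} (R : Regions q) (Q : ℕ → ℕ → ℕ) (T : Tab) :
    chkT R Q T = chkP R.pc R.pw R.ph Q T := rfl

/-- the square of order four with hitting number 3 -/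
def Q3 : ℕ → ℕ → ℕ := sqOf [[0, 1, 2, 3], [1, 0, 3, 2], [2, 3, 1, 0], [3, 2, 0, 1]]

def H3 : List (ℕ × ℕ) := [(1, 1), (1, 3), (3, 1)]

theorem Q3_latin : Latin4 Q3 := by decide +kernel

theorem H3_hits : chkHits Q3 H3 = true := by decide +kernel

/-- the square of order four with hitting number 6 -/
def Q6 : ℕ → ℕ → ℕ := sqOf [[0, 1, 2, 3], [1, 3, 0, 2], [3, 2, 1, 0], [2, 0, 3, 1]]

def H6 : List (ℕ × ℕ) := [(1, 1), (1, 2), (1, 3), (2, 1), (2, 3), (3, 2)]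

theorem Q6_latin : Latin4 Q6 := by decide +kernel

theorem H6_hits : chkHits Q6 H6 = true := by decide +kernel

/-- the square of order four with hitting number 9 -/
def Q9 : ℕ → ℕ → ℕ := sqOf [[0, 2, 3, 1], [3, 0, 1, 2], [2, 1, 0, 3], [1, 3, 2, 0]]

def H9 : List (ℕ × ℕ) := [(0, 3), (1, 0), (1, 1), (1, 2), (1, 3), (2, 1), (2, 3), (3, 0), (3, 3)]

theorem Q9_latin : Latin4 Q9 := by decide +kernel

theorem H9_hits : chkHits Q9 H9 = true := by decide +kernel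

/-- tables -/
def t3e : List (List (List (ℕ × ℕ))) := [
  [[(0, 2), (2, 1), (1, 2), (1, 1)], [(0, 2), (0, 1), (0, 1), (0, 2)], [
    (1, 2), (1, 1), (2, 2), (2, 1)], [(2, 1), (2, 1), (2, 2), (2, 2)]],
  [[(3, 1), (1, 2), (2, 2), (2, 1)], [(3, 1), (3, 2), (0, 2), (2, 1)], [
    (3, 2), (2, 1), (3, 1), (2, 2)], [(0, 1), (0, 2), (1, 2), (3, 1)]],
  [[(3, 2), (0, 1), (2, 1), (3, 2)], [(3, 2), (3, 1), (3, 1), (3, 2)], [
    (0, 1), (0, 1), (3, 2), (3, 2)], [(3, 1), (3, 1), (3, 2), (3, 2)]]]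

theorem t3e_le : ∀ k : Fin 3, ∀ r ρ, (tabOf (t3e.getD k []) r ρ).2 ≤ 4 :=
  fun k => tabOf_le (by revert k; decide +kernel)

theorem t3e_T : ∀ k : Fin 3, chkP evC evW evH Q3 (tabOf (t3e.getD k [])) = true := by
  decide +kernel

theorem t3e_D : ∀ k l : Fin 3, k < l →
    chkD 4 (tabOf (t3e.getD k [])) (tabOf (t3e.getD l [])) = true := by
  decide +kernel

theorem t3e_A : ∀ k : Fin 3, chkA 4 0 1 (tabOf (t3e.getD k [])) = true := by
  decide +kernel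

/-- tables -/
def t6e : List (List (List (ℕ × ℕ))) := [
  [[(0, 1), (0, 2), (1, 2), (3, 1)], [(0, 1), (1, 1), (1, 2), (2, 2)], [
    (0, 1), (1, 2), (2, 2), (3, 1)], [(1, 1), (2, 1), (2, 2), (3, 2)]],
  [[(0, 2), (1, 1), (2, 1), (3, 2)], [(2, 2), (3, 2), (1, 1), (2, 1)], [
    (2, 2), (3, 2), (1, 1), (2, 1)], [(2, 2), (0, 1), (1, 1), (1, 2)]],
  [[(1, 1), (2, 1), (3, 2), (0, 2)], [(2, 1), (2, 2), (3, 2), (1, 1)], [
    (3, 2), (1, 1), (2, 1), (2, 2)], [(1, 2), (2, 2), (0, 1), (1, 1)]],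
  [[(1, 2), (2, 2), (3, 1), (0, 1)], [(1, 2), (3, 1), (0, 1), (0, 2)], [
    (2, 1), (0, 2), (1, 2), (1, 1)], [(3, 2), (0, 2), (2, 1), (3, 1)]],
  [[(2, 2), (0, 1), (0, 1), (2, 2)], [(3, 1), (0, 2), (2, 1), (3, 2)], [
    (3, 1), (3, 1), (0, 2), (0, 2)], [(0, 1), (1, 2), (3, 1), (0, 2)]],
  [[(3, 2), (3, 2), (1, 1), (1, 1)], [(3, 2), (0, 1), (2, 2), (3, 1)], [
    (1, 2), (0, 1), (0, 1), (1, 2)], [(0, 2), (1, 1), (3, 2), (0, 1)]]]

theorem t6e_le : ∀ k : Fin 6, ∀ r ρ, (tabOf (t6e.getD k []) r ρ).2 ≤ 4 :=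
  fun k => tabOf_le (by revert k; decide +kernel)

theorem t6e_T : ∀ k : Fin 6, chkP evC evW evH Q6 (tabOf (t6e.getD k [])) = true := by
  decide +kernel

theorem t6e_D : ∀ k l : Fin 6, k < l →
    chkD 4 (tabOf (t6e.getD k [])) (tabOf (t6e.getD l [])) = true := by
  decide +kernel

theorem t6e_A : ∀ k : Fin 6, chkA 4 0 1 (tabOf (t6e.getD k [])) = true := by
  decide +kernel

/-- tables -/
def t9e : List (List (List (ℕ × ℕ))) := [
  [[(2, 2), (0, 1), (0, 3), (0, 4)], [(0, 2), (0, 1), (0, 3), (0, 4)], [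
    (2, 4), (0, 1), (0, 3), (2, 2)], [(2, 4), (2, 3), (2, 1), (2, 2)]],
  [[(3, 2), (3, 1), (0, 1), (2, 2)], [(3, 2), (3, 1), (0, 1), (2, 2)], [
    (0, 1), (3, 2), (0, 2), (3, 1)], [(1, 1), (3, 2), (0, 2), (0, 1)]],
  [[(0, 2), (2, 1), (1, 2), (0, 3)], [(1, 1), (1, 1), (2, 2), (0, 3)], [
    (1, 2), (1, 1), (2, 2), (2, 1)], [(0, 2), (1, 1), (3, 2), (0, 2)]],
  [[(2, 4), (3, 2), (2, 3), (1, 1)], [(2, 4), (2, 2), (2, 3), (2, 1)], [
    (1, 1), (0, 3), (3, 2), (2, 4)], [(2, 3), (2, 1), (2, 2), (2, 4)]],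
  [[(1, 2), (0, 3), (3, 1), (1, 2)], [(2, 2), (0, 3), (1, 2), (1, 2)], [
    (2, 3), (1, 2), (1, 2), (2, 3)], [(3, 2), (0, 3), (0, 3), (1, 1)]],
  [[(2, 3), (1, 1), (0, 2), (0, 2)], [(2, 3), (3, 2), (3, 2), (0, 2)], [
    (0, 2), (2, 3), (2, 3), (0, 2)], [(0, 3), (1, 2), (3, 1), (0, 3)]],
  [[(0, 3), (0, 4), (2, 2), (0, 1)], [(0, 3), (0, 4), (0, 2), (0, 1)], [
    (0, 3), (2, 2), (2, 4), (0, 1)], [(2, 1), (2, 2), (2, 4), (2, 3)]],
  [[(0, 4), (1, 2), (1, 1), (2, 3)], [(0, 4), (1, 2), (1, 1), (2, 3)], [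
    (3, 2), (2, 4), (1, 1), (0, 3)], [(1, 2), (2, 4), (2, 3), (3, 1)]],
  [[(3, 1), (0, 2), (2, 1), (3, 2)], [(3, 1), (0, 2), (2, 1), (3, 2)], [
    (3, 1), (0, 2), (2, 1), (1, 2)], [(3, 1), (0, 2), (0, 1), (1, 2)]]]

theorem t9e_le : ∀ k : Fin 9, ∀ r ρ, (tabOf (t9e.getD k []) r ρ).2 ≤ 4 :=
  fun k => tabOf_le (by revert k; decide +kernel)

theorem t9e_T : ∀ k : Fin 9, chkP evC evW evH Q9 (tabOf (t9e.getD k [])) = true := by
  decide +kernel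

theorem t9e_D : ∀ k l : Fin 9, k < l →
    chkD 4 (tabOf (t9e.getD k [])) (tabOf (t9e.getD l [])) = true := by
  decide +kernel

theorem t9e_A : ∀ k : Fin 9, chkA 4 0 2 (tabOf (t9e.getD k [])) = true := by
  decide +kernel

/-- tables -/
def t3o : List (List (List (ℕ × ℕ))) := [
  [[(0, 1), (0, 2), (0, 2), (2, 1)], [(0, 1), (0, 2), (0, 2), (0, 1)], [
    (0, 1), (0, 2), (0, 2), (0, 1)], [(0, 1), (0, 2), (0, 2), (0, 1)]],
  [[(0, 2), (2, 1), (3, 1), (3, 0)], [(0, 2), (0, 1), (1, 1), (3, 0)], [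
    (2, 1), (2, 2), (1, 1), (3, 0)], [(2, 1), (3, 1), (3, 0), (0, 2)]],
  [[(2, 2), (0, 1), (2, 1), (2, 2)], [(2, 2), (2, 1), (2, 1), (2, 2)], [
    (2, 2), (2, 1), (2, 1), (2, 2)], [(2, 2), (2, 1), (2, 1), (2, 2)]]]

theorem t3o_le : ∀ k : Fin 3, ∀ r ρ, (tabOf (t3o.getD k []) r ρ).2 ≤ 4 :=
  fun k => tabOf_le (by revert k; decide +kernel)

theorem t3o_T : ∀ k : Fin 3, chkP odC odW odH Q3 (tabOf (t3o.getD k [])) = true := by
  decide +kernel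

theorem t3o_D : ∀ k l : Fin 3, k < l →
    chkD 4 (tabOf (t3o.getD k [])) (tabOf (t3o.getD l [])) = true := by
  decide +kernel

theorem t3o_A : ∀ k : Fin 3, chkA 4 1 1 (tabOf (t3o.getD k [])) = true := by
  decide +kernel

/-- tables -/
def t6o : List (List (List (ℕ × ℕ))) := [
  [[(0, 2), (1, 1), (2, 1), (1, 0)], [(1, 1), (2, 1), (1, 0), (0, 2)], [
    (0, 1), (1, 0), (3, 1), (0, 2)], [(0, 1), (1, 0), (3, 1), (0, 2)], [
    (0, 2), (1, 0), (0, 1), (1, 1)], [(1, 0), (0, 1), (2, 2), (3, 1)], [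
    (0, 2), (1, 1), (1, 0), (2, 1)]],
  [[(3, 0), (0, 1), (0, 1), (3, 0)], [(3, 0), (3, 0), (3, 1), (3, 1)], [
    (1, 1), (1, 1), (1, 0), (1, 0)], [(1, 1), (1, 1), (1, 0), (1, 0)], [
    (1, 1), (1, 1), (1, 0), (1, 0)], [(3, 0), (3, 0), (1, 1), (1, 1)], [
    (1, 0), (1, 0), (1, 1), (1, 1)]],
  [[(1, 0), (0, 2), (3, 1), (0, 1)], [(2, 1), (1, 0), (0, 2), (1, 1)], [
    (3, 0), (0, 1), (0, 2), (1, 1)], [(3, 0), (0, 1), (0, 2), (1, 1)], [
    (3, 0), (0, 2), (3, 1), (0, 1)], [(3, 1), (2, 2), (0, 1), (1, 0)], [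
    (1, 1), (2, 2), (0, 1), (1, 0)]],
  [[(0, 1), (1, 0), (0, 2), (3, 1)], [(1, 0), (0, 1), (1, 1), (2, 2)], [
    (2, 1), (3, 0), (1, 1), (2, 2)], [(2, 1), (3, 0), (1, 1), (2, 2)], [
    (0, 1), (3, 0), (0, 2), (3, 1)], [(2, 2), (3, 1), (1, 0), (0, 1)], [
    (2, 2), (3, 1), (3, 0), (0, 1)]],
  [[(1, 1), (2, 1), (1, 0), (0, 2)], [(0, 1), (1, 1), (2, 2), (1, 0)], [
    (1, 0), (2, 1), (2, 2), (3, 1)], [(1, 0), (2, 1), (2, 2), (3, 1)], [
    (1, 0), (0, 1), (1, 1), (0, 2)], [(0, 1), (1, 0), (3, 1), (2, 2)], [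
    (3, 1), (0, 2), (2, 1), (3, 0)]],
  [[(2, 2), (2, 2), (1, 1), (1, 1)], [(0, 2), (0, 2), (2, 1), (2, 1)], [
    (0, 2), (0, 2), (0, 1), (0, 1)], [(2, 2), (2, 2), (0, 1), (0, 1)], [
    (2, 2), (2, 2), (2, 1), (2, 1)], [(0, 2), (0, 2), (2, 1), (2, 1)], [
    (2, 1), (2, 1), (2, 2), (2, 2)]]]

theorem t6o_le : ∀ k : Fin 6, ∀ r ρ, (tabOf (t6o.getD k []) r ρ).2 ≤ 4 :=
  fun k => tabOf_le (by revert k; decide +kernel)

theorem t6o_T : ∀ k : Fin 6, chkP osC osW osH Q6 (tabOf (t6o.getD k [])) = true := by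
  decide +kernel

theorem t6o_D : ∀ k l : Fin 6, k < l →
    chkD 7 (tabOf (t6o.getD k [])) (tabOf (t6o.getD l [])) = true := by
  decide +kernel

theorem t6o_A : ∀ k : Fin 6, chkA 7 1 1 (tabOf (t6o.getD k [])) = true := by
  decide +kernel

/-- tables -/
def t6v : List (List (List (ℕ × ℕ))) := [
  [[(0, 1), (2, 1), (0, 2), (0, 2)], [(0, 1), (0, 1), (0, 2), (0, 2)], [
    (0, 1), (0, 1), (0, 2), (0, 2)], [(0, 1), (0, 1), (0, 2), (0, 2)], [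
    (0, 1), (0, 1), (2, 2), (2, 2)]],
  [[(0, 2), (0, 2), (1, 1), (1, 1)], [(0, 2), (0, 2), (0, 1), (0, 1)], [
    (0, 2), (0, 2), (0, 1), (0, 1)], [(2, 2), (2, 2), (0, 1), (0, 1)], [
    (0, 2), (0, 2), (2, 1), (2, 1)]],
  [[(1, 0), (1, 1), (2, 1), (2, 2)], [(1, 0), (2, 1), (2, 2), (1, 1)], [
    (2, 1), (2, 2), (3, 1), (3, 0)], [(2, 1), (3, 1), (1, 0), (2, 2)], [
    (1, 0), (1, 1), (0, 2), (0, 1)]],
  [[(1, 1), (3, 0), (3, 0), (3, 1)], [(1, 1), (1, 1), (1, 0), (1, 0)], [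
    (3, 1), (3, 1), (1, 0), (1, 0)], [(1, 1), (1, 1), (3, 0), (3, 0)], [
    (3, 0), (3, 0), (3, 1), (3, 1)]],
  [[(2, 2), (1, 0), (3, 1), (0, 1)], [(3, 1), (1, 0), (2, 1), (2, 2)], [
    (1, 0), (2, 1), (2, 2), (3, 1)], [(0, 2), (2, 1), (3, 1), (1, 0)], [
    (2, 1), (1, 0), (1, 1), (0, 2)]],
  [[(3, 0), (0, 1), (0, 1), (3, 0)], [(3, 0), (3, 0), (3, 1), (3, 1)], [
    (3, 0), (3, 0), (1, 1), (1, 1)], [(1, 0), (1, 0), (1, 1), (1, 1)], [
    (3, 1), (3, 1), (3, 0), (3, 0)]]]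

theorem t6v_le : ∀ k : Fin 6, ∀ r ρ, (tabOf (t6v.getD k []) r ρ).2 ≤ 4 :=
  fun k => tabOf_le (by revert k; decide +kernel)

theorem t6v_T : ∀ k : Fin 6, chkP fvC fvW fvH Q6 (tabOf (t6v.getD k [])) = true := by
  decide +kernel

theorem t6v_D : ∀ k l : Fin 6, k < l →
    chkD 5 (tabOf (t6v.getD k [])) (tabOf (t6v.getD l [])) = true := by
  decide +kernel

theorem t6v_A : ∀ k : Fin 6, chkA 5 1 1 (tabOf (t6v.getD k [])) = true := by
  decide +kernel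

/-- tables -/
def t9o : List (List (List (ℕ × ℕ))) := [
  [[(3, 1), (0, 2), (0, 2), (1, 2)], [(3, 1), (0, 2), (0, 2), (1, 2)], [
    (3, 1), (0, 2), (1, 2), (1, 2)], [(1, 2), (2, 2), (0, 1), (1, 2)], [
    (1, 2), (2, 2), (0, 1), (1, 2)]],
  [[(3, 0), (3, 1), (0, 1), (3, 0)], [(1, 0), (2, 0), (2, 1), (3, 1)], [
    (1, 0), (2, 0), (1, 1), (1, 1)], [(1, 0), (3, 1), (0, 0), (0, 1)], [
    (2, 0), (3, 1), (3, 0), (0, 1)]],
  [[(1, 0), (0, 1), (0, 0), (0, 2)], [(0, 0), (1, 0), (3, 1), (0, 2)], [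
    (0, 0), (1, 0), (2, 1), (3, 2)], [(2, 0), (2, 1), (0, 2), (2, 0)], [
    (1, 0), (2, 1), (0, 2), (1, 0)]],
  [[(2, 2), (1, 1), (1, 2), (1, 0)], [(2, 2), (0, 1), (1, 2), (1, 0)], [
    (2, 2), (3, 2), (3, 1), (1, 0)], [(0, 2), (1, 2), (3, 1), (1, 0)], [
    (0, 2), (1, 2), (3, 1), (0, 0)]],
  [[(0, 2), (2, 1), (3, 0), (3, 2)], [(0, 2), (0, 0), (1, 1), (3, 2)], [
    (1, 1), (0, 0), (0, 2), (0, 2)], [(3, 0), (0, 1), (3, 2), (0, 2)], [
    (2, 1), (3, 0), (3, 2), (0, 2)]],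
  [[(1, 2), (1, 0), (3, 1), (0, 0)], [(1, 2), (3, 1), (0, 0), (0, 0)], [
    (3, 2), (1, 1), (0, 0), (0, 0)], [(3, 2), (3, 0), (2, 1), (0, 0)], [
    (3, 2), (0, 0), (2, 1), (3, 0)]],
  [[(0, 1), (3, 0), (1, 1), (2, 0)], [(2, 0), (2, 1), (3, 0), (1, 1)], [
    (2, 0), (0, 1), (3, 0), (3, 1)], [(0, 0), (1, 1), (1, 0), (2, 1)], [
    (0, 0), (1, 1), (1, 0), (2, 1)]],
  [[(2, 0), (2, 2), (3, 2), (1, 1)], [(0, 1), (2, 2), (3, 2), (3, 0)], [
    (0, 1), (1, 2), (2, 2), (3, 0)], [(2, 2), (3, 2), (1, 1), (3, 0)], [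
    (2, 2), (3, 2), (1, 1), (2, 0)]],
  [[(3, 2), (2, 0), (2, 2), (0, 1)], [(3, 2), (1, 1), (2, 2), (2, 0)], [
    (1, 2), (2, 2), (0, 1), (2, 0)], [(0, 1), (0, 0), (1, 2), (2, 2)], [
    (0, 1), (1, 0), (1, 2), (2, 2)]]]

theorem t9o_le : ∀ k : Fin 9, ∀ r ρ, (tabOf (t9o.getD k []) r ρ).2 ≤ 4 :=
  fun k => tabOf_le (by revert k; decide +kernel)

theorem t9o_T : ∀ k : Fin 9, chkP onC onW onH Q9 (tabOf (t9o.getD k [])) = true := by
  decide +kernel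

theorem t9o_D : ∀ k l : Fin 9, k < l →
    chkD 5 (tabOf (t9o.getD k [])) (tabOf (t9o.getD l [])) = true := by
  decide +kernel

theorem t9o_A : ∀ k : Fin 9, chkB 5 (tabOf (t9o.getD k [])) = true := by
  decide +kernel

theorem evR_lt (p c : ℕ) : evR p c < 4 := by unfold evR; split_ifs <;> omega
theorem odR_lt (p c : ℕ) : odR p c < 4 := by unfold odR; split_ifs <;> omega
theorem osR_lt (p c : ℕ) : osR p c < 7 := by unfold osR; split_ifs <;> omega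
theorem onR_lt (p c : ℕ) : onR p c < 5 := by unfold onR; split_ifs <;> omega
theorem fvR_lt (c : ℕ) : fvR c < 5 := by unfold fvR; omega

theorem attains_three_even {q p j : ℕ} (hq : 4 ≤ q) (hp : q = 2 * p) (hj : j + 2 ≤ q) :
    Attains (4 * q) (4 * j + 3) :=
  quad_attains (p := p) (δ := 0) (s0 := 1) (rmax := 4) hq (by omega) (by omega)
    (by omega) (by omega) (evReg q p (by omega) hp) (fun c => by exact evR_lt p c) Q3_latin (H := H3) rfl H3_hits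
    (by decide) (fun k => tabOf (t3e.getD k [])) t3e_le
    (fun k => by rw [chkT_eq]; exact t3e_T k) t3e_D t3e_A (j := j) (by omega)

theorem attains_three_odd {q p j : ℕ} (hq : 4 ≤ q) (hp : q = 2 * p + 1) (hj : j + 2 ≤ q) :
    Attains (4 * q) (4 * j + 3) :=
  quad_attains (p := p) (δ := 1) (s0 := 1) (rmax := 4) hq (by omega) (by omega)
    (by omega) (by omega) (odReg q p (by omega) hp) (fun c => by exact odR_lt p c) Q3_latin (H := H3) rfl H3_hits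
    (by decide) (fun k => tabOf (t3o.getD k [])) t3o_le
    (fun k => by rw [chkT_eq]; exact t3o_T k) t3o_D t3o_A (j := j) (by omega)

theorem attains_six_even {q p j : ℕ} (hq : 4 ≤ q) (hp : q = 2 * p) (hj : j + 2 ≤ q) :
    Attains (4 * q) (4 * j + 6) :=
  quad_attains (p := p) (δ := 0) (s0 := 1) (rmax := 4) hq (by omega) (by omega)
    (by omega) (by omega) (evReg q p (by omega) hp) (fun c => by exact evR_lt p c) Q6_latin (H := H6) rfl H6_hits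
    (by decide) (fun k => tabOf (t6e.getD k [])) t6e_le
    (fun k => by rw [chkT_eq]; exact t6e_T k) t6e_D t6e_A (j := j) (by omega)

theorem attains_six_odd {q p j : ℕ} (hp3 : 3 ≤ p) (hq : 4 ≤ q) (hp : q = 2 * p + 1)
    (hj : j + 2 ≤ q) : Attains (4 * q) (4 * j + 6) :=
  quad_attains (p := p) (δ := 1) (s0 := 1) (rmax := 7) hq (by omega) (by omega)
    (by omega) (by omega) (osReg q p (by omega) hp) (fun c => by exact osR_lt p c) Q6_latin (H := H6) rfl H6_hits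
    (by decide) (fun k => tabOf (t6o.getD k [])) t6o_le
    (fun k => by rw [chkT_eq]; exact t6o_T k) t6o_D t6o_A (j := j) (by omega)

theorem attains_six_five {j : ℕ} (hj : j + 2 ≤ 5) : Attains (4 * 5) (4 * j + 6) :=
  have hq : 4 ≤ 5 := by omega
  quad_attains (p := 2) (δ := 1) (s0 := 1) (rmax := 5) hq (by omega) (by omega)
    (by omega) (by omega) (fvReg) (fun c => by exact fvR_lt c) Q6_latin (H := H6) rfl H6_hits
    (by decide) (fun k => tabOf (t6v.getD k [])) t6v_le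
    (fun k => by rw [chkT_eq]; exact t6v_T k) t6v_D t6v_A (j := j) (by omega)

theorem attains_nine_even {q p j : ℕ} (hq : 4 ≤ q) (hp : q = 2 * p) (hj : j + 3 ≤ q) :
    Attains (4 * q) (4 * j + 9) :=
  quad_attains (p := p) (δ := 0) (s0 := 2) (rmax := 4) hq (by omega) (by omega)
    (by omega) (by omega) (evReg q p (by omega) hp) (fun c => by exact evR_lt p c) Q9_latin (H := H9) rfl H9_hits
    (by decide) (fun k => tabOf (t9e.getD k [])) t9e_le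
    (fun k => by rw [chkT_eq]; exact t9e_T k) t9e_D t9e_A (j := j) (by omega)

theorem attains_nine_odd {q p j : ℕ} (hq : 4 ≤ q) (hp : q = 2 * p + 1) (hj : j + 3 ≤ q) :
    Attains (4 * q) (4 * j + 9) :=
  quad_attains_odd (rmax := 5) hq hp (onReg q p (by omega) hp) (fun c => onR_lt p c) Q9_latin
    (H := H9) rfl H9_hits (by decide) (fun k => tabOf (t9o.getD k [])) t9o_le
    (fun k => by rw [chkT_eq]; exact t9o_T k) t9o_D t9o_A (j := j) hj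

/-- `m = 3 mod 4` -/
theorem attains_quad_three {q m : ℕ} (hq : 4 ≤ q) (h4 : m % 4 = 3) (hm : m + 5 ≤ 4 * q) :
    Attains (4 * q) m := by
  obtain ⟨j, rfl⟩ : ∃ j, m = 4 * j + 3 := ⟨m / 4, by omega⟩
  rcases Nat.even_or_odd' q with ⟨p, hp | hp⟩
  · exact attains_three_even hq hp (by omega)
  · exact attains_three_odd hq hp (by omega)

/-- `m = 2 mod 4`, `m >= 6` -/
theorem attains_quad_two {q m : ℕ} (hq : 4 ≤ q) (h4 : m % 4 = 2) (h6 : 6 ≤ m)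
    (hm : m + 2 ≤ 4 * q) : Attains (4 * q) m := by
  obtain ⟨j, rfl⟩ : ∃ j, m = 4 * j + 6 := ⟨(m - 6) / 4, by omega⟩
  rcases Nat.even_or_odd' q with ⟨p, hp | hp⟩
  · exact attains_six_even hq hp (by omega)
  · rcases Nat.lt_or_ge p 3 with h3 | h3
    · obtain rfl : q = 5 := by omega
      exact attains_six_five (by omega)
    · exact attains_six_odd h3 hq hp (by omega)

/-- `m = 1 mod 4`, `m >= 9` -/
theorem attains_quad_one {q m : ℕ} (hq : 4 ≤ q) (h4 : m % 4 = 1) (h9 : 9 ≤ m)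
    (hm : m + 3 ≤ 4 * q) : Attains (4 * q) m := by
  obtain ⟨j, rfl⟩ : ∃ j, m = 4 * j + 9 := ⟨(m - 9) / 4, by omega⟩
  rcases Nat.even_or_odd' q with ⟨p, hp | hp⟩
  · exact attains_nine_even hq hp (by omega)
  · exact attains_nine_odd hq hp (by omega)

/-- everything for `n = 4 q`, `q >= 4`, except `m = 1, 2, 5` and `m = n - 1` -/
theorem attains_quad {q m : ℕ} (hq : 4 ≤ q) (h1 : m ≠ 1) (h2 : m ≠ 2) (h5 : m ≠ 5)
    (h0 : 0 < m) (hm : m + 2 ≤ 4 * q) : Attains (4 * q) m := by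
  have h : m % 4 = 0 ∨ m % 4 = 1 ∨ m % 4 = 2 ∨ m % 4 = 3 := by omega
  rcases h with h | h | h | h
  · obtain ⟨j, rfl⟩ : ∃ j, m = 4 * j := ⟨m / 4, by omega⟩
    exact attains_four (h := 2 * q) (by ring) (by omega) (by omega)
  · exact attains_quad_one hq h (by omega) (by omega)
  · exact attains_quad_two hq h (by omega) hm
  · exact attains_quad_three hq h (by omega)

end Pool.Agent.Hhelper79.LT
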