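import Mathlib
import Pool.Agent.Hhelper79.LT.Four

set_option autoImplicit false

/-!
The assembly theorem for base squares in which two rows `p0`, `p1` are exchanged on a set of
columns `S`: block transversals are repaired by exchanging the two rows.
-/

namespace Pool.Agent.Hhelper79.LT

open Finset

section

variable {n h : ℕ} {B : ZMod n → ZMod n → ZMod n} {T : Finset (ZMod n)}

theorem turned_latin_of (hn : n = 2 * h) (hB : IsLatin B)
    (hstd : ∀ i c, SpRow h i → TCol h T c → B i c = i + c) : IsLatin (turned h B T) := by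
  classical
  have h2 := two_h hn
  constructor
  · intro i
    by_cases hi : SpRow h i
    · have e : ∀ c, turned h B T i c = B i (if TCol h T c then c + h else c) := by
        intro c
        unfold turned
        by_cases hc : TCol h T c
        · rw [if_pos ⟨hi, hc⟩, if_pos hc, hstd i _ hi ((tCol_add_h hn).2 hc)]
          ring
        · rw [if_neg (fun h => hc h.2), if_neg hc]
      intro c c' hcc
      rw [e, e] at hcc
      have h3 := hB.1 i hcc
      by_cases hc : TCol h T c <;> by_cases hc' : TCol h T c'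
      · rw [if_pos hc, if_pos hc'] at h3
        exact add_right_cancel h3
      · rw [if_pos hc, if_neg hc'] at h3
        exact absurd (h3 ▸ (tCol_add_h hn).2 hc) hc'
      · rw [if_neg hc, if_pos hc'] at h3
        exact absurd (h3 ▸ (tCol_add_h hn).2 hc') hc
      · rwa [if_neg hc, if_neg hc'] at h3
    · have e : ∀ c, turned h B T i c = B i c := by
        intro c
        unfold turned
        rw [if_neg (fun h => hi h.1)]
      intro c c' hcc
      rw [e, e] at hcc
      exact hB.1 i hcc
  · intro c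
    by_cases hc : TCol h T c
    · have e : ∀ i, turned h B T i c = B (if SpRow h i then i + h else i) c := by
        intro i
        unfold turned
        by_cases hi : SpRow h i
        · rw [if_pos ⟨hi, hc⟩, if_pos hi, hstd _ c ((spRow_add_h hn).2 hi) hc]
          ring
        · rw [if_neg (fun h => hi h.1), if_neg hi]
      intro i i' hii
      simp only [e] at hii
      have h3 := hB.2 c hii
      by_cases hi : SpRow h i <;> by_cases hi' : SpRow h i'
      · rw [if_pos hi, if_pos hi'] at h3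
        exact add_right_cancel h3
      · rw [if_pos hi, if_neg hi'] at h3
        exact absurd (h3 ▸ (spRow_add_h hn).2 hi) hi'
      · rw [if_neg hi, if_pos hi'] at h3
        exact absurd (h3 ▸ (spRow_add_h hn).2 hi') hi
      · rwa [if_neg hi, if_neg hi'] at h3
    · have e : ∀ i, turned h B T i c = B i c := by
        intro i
        unfold turned
        rw [if_neg (fun h => hc h.2)]
      intro i i' hii
      simp only [e] at hii
      exact hB.2 c hii

open Classical in
/-- all the turned cells -/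
noncomputable def tCells (n h : ℕ) (T : Finset (ZMod n)) : Finset (ZMod n × ZMod n) :=
  (Finset.univ : Finset ({t // t ∈ T} × Bool × Bool)).image
    (fun x => tCell n h x.2.1 x.2.2 x.1.1)

theorem card_tCells (n h : ℕ) (T : Finset (ZMod n)) : (tCells n h T).card ≤ 4 * T.card := by
  classical
  unfold tCells
  refine Finset.card_image_le.trans ?_
  rw [Finset.card_univ, Fintype.card_prod, Fintype.card_prod, Fintype.card_bool,
    Fintype.card_coe]
  omega

open Classical in
theorem hits_turned {H0 : Finset (ZMod n × ZMod n)} (hits : Hits B H0) :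
    Hits (turned h B T) (H0 ∪ tCells n h T) := by
  intro f hf
  by_cases hex : ∃ i, SpRow h i ∧ TCol h T (f i)
  · obtain ⟨i, hi, hc⟩ := hex
    refine ⟨i, Finset.mem_union_right _ ?_⟩
    unfold tCells
    rw [Finset.mem_image]
    have hc' : ∃ t : {t // t ∈ T}, ∃ b', f i = tOf n h b' t.1 := by
      rcases hc with hc | hc
      · exact ⟨⟨_, hc⟩, false, by simp [tOf]⟩
      · exact ⟨⟨_, hc⟩, true, by simp [tOf]⟩
    have hi' : ∃ b : Bool, i = if b then (h : ZMod n) - 1 else -1 := by
      rcases hi with hi | hi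
      · exact ⟨false, by simp [hi]⟩
      · exact ⟨true, by simp [hi]⟩
    obtain ⟨t, b', hb'⟩ := hc'
    obtain ⟨b, hb⟩ := hi'
    refine ⟨(t, b, b'), Finset.mem_univ _, ?_⟩
    unfold tCell
    exact Prod.ext hb.symm hb'.symm
  · push Not at hex
    have e : ∀ i, turned h B T i (f i) = B i (f i) := by
      intro i
      unfold turned
      rw [if_neg (fun h => hex i h.1 h.2)]
    obtain ⟨i, hi⟩ := hits f ⟨hf.1, by
      have := hf.2
      simp only [e] at this
      exact this⟩
    exact ⟨i, Finset.mem_union_left _ hi⟩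

/-- exchange the rows `p0`, `p1` if the column of row `p0` is in `S` -/
noncomputable def swf (S : ZMod n → Prop) (p0 p1 : ZMod n) (f : ZMod n → ZMod n) (i : ZMod n) :
    ZMod n :=
  open Classical in if S (f p0) then f (Equiv.swap p0 p1 i) else f i

/-- base square with two rows exchanged on the columns of `S` -/
structure SBase (n h : ℕ) (B : ZMod n → ZMod n → ZMod n) (T : Finset (ZMod n))
    (p0 p1 : ZMod n) (S : ZMod n → Prop) : Prop where
  latin : IsLatin B
  ne : p0 ≠ p1
  sp0 : ¬ SpRow h p0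
  sp1 : ¬ SpRow h p1
  std : ∀ t ∈ T, ∀ i c : ZMod n, i ≠ p0 → i ≠ p1 → Blk (h : ZMod n) t (c - i) → B i c = i + c
  cellS : ∀ t ∈ T, ∀ i c : ZMod n, (i = p0 ∨ i = p1) → Blk (h : ZMod n) t (c - i) → S c →
    B p0 c = p1 + c ∧ B p1 c = p0 + c
  cellN : ∀ t ∈ T, ∀ i c : ZMod n, (i = p0 ∨ i = p1) → Blk (h : ZMod n) t (c - i) → ¬ S c →
    B p0 c = p0 + c ∧ B p1 c = p1 + c
  cons : ∀ t ∈ T, ∀ a t' : ZMod n, (a = 0 ∨ a = (h : ZMod n)) →
    (t' = t ∨ t' = t + (h : ZMod n)) → (S (bt n h a t' p0) ↔ S (bt n h a t' p1))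
  disj : ∀ t ∈ T, ∀ t' ∈ T, t ≠ t' → ∀ d, Blk (h : ZMod n) t d → ¬ Blk (h : ZMod n) t' d

variable {p0 p1 : ZMod n} {S : ZMod n → Prop}

theorem SBase.mono {T' : Finset (ZMod n)} (hB : SBase n h B T p0 p1 S) (hT : T' ⊆ T) :
    SBase n h B T' p0 p1 S :=
  ⟨hB.latin, hB.ne, hB.sp0, hB.sp1, fun t ht => hB.std t (hT ht),
    fun t ht => hB.cellS t (hT ht), fun t ht => hB.cellN t (hT ht),
    fun t ht => hB.cons t (hT ht), fun t ht t' ht' => hB.disj t (hT ht) t' (hT ht')⟩

theorem SBase.hstd (hn : n = 2 * h) (hB : SBase n h B T p0 p1 S) :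
    ∀ i c, SpRow h i → TCol h T c → B i c = i + c := by
  intro i c hi hc
  obtain ⟨t, ht, hb⟩ := turned_blk hn hi hc
  exact hB.std t ht i c (fun e => hB.sp0 (e ▸ hi)) (fun e => hB.sp1 (e ▸ hi)) hb

theorem SBase.pure (hB : SBase n h B T p0 p1 S) : Base n h (fun i c : ZMod n => i + c) T :=
  ⟨latin_add n, fun _ _ _ _ _ => rfl, hB.disj⟩

theorem blk_bt (hn : n = 2 * h) {t t' : ZMod n} (ht : t' = t ∨ t' = t + (h : ZMod n))
    (a i : ZMod n) : Blk (h : ZMod n) t (bt n h a t' i - i) := by
  have h3 := bt_blk (h := h) a t' i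
  rcases ht with rfl | rfl
  · exact h3
  · exact (blk_add_h hn).1 h3

/-- repaired block transversals are transversals -/
theorem SBase.sw_trans [NeZero n] (hn : n = 2 * h) (hh : 2 ≤ h) (hB : SBase n h B T p0 p1 S)
    {t t' a : ZMod n} (ht : t ∈ T) (ht' : t' = t ∨ t' = t + (h : ZMod n))
    (ha : a = 0 ∨ a = (h : ZMod n)) :
    IsTrans (turned h B T) (swf S p0 p1 (bt n h a t')) := by
  classical
  have h2 := two_h hn
  have hpure := hB.pure.bt_trans hn hh (t := t') (a := a) (by
    rcases ht' with rfl | rfl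
    · left; exact ht
    · right
      have : t + (h : ZMod n) - h = t := by ring
      rw [this]; exact ht) ha
  have hcons := hB.cons t ht a t' ha ht'
  have hblk := blk_bt hn ht' a
  -- symbols of the pure transversal
  have hs : ∀ i, (if S (bt n h a t' p0) then
      turned h (fun i c : ZMod n => i + c) T (Equiv.swap p0 p1 i)
        (bt n h a t' (Equiv.swap p0 p1 i)) else
      turned h (fun i c : ZMod n => i + c) T i (bt n h a t' i)) =
      turned h B T i (swf S p0 p1 (bt n h a t') i) := by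
    intro i
    have hp0 : ∀ (B' : ZMod n → ZMod n → ZMod n) c, turned h B' T p0 c = B' p0 c := by
      intro B' c; unfold turned; rw [if_neg (fun h => hB.sp0 h.1)]
    have hp1 : ∀ (B' : ZMod n → ZMod n → ZMod n) c, turned h B' T p1 c = B' p1 c := by
      intro B' c; unfold turned; rw [if_neg (fun h => hB.sp1 h.1)]
    unfold swf
    by_cases hS : S (bt n h a t' p0)
    · rw [if_pos hS, if_pos hS]
      have hS1 := hcons.1 hS
      by_cases hi0 : i = p0
      · subst hi0
        rw [Equiv.swap_apply_left, hp1, hp0]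
        exact ((hB.cellS t ht p1 _ (Or.inr rfl) (hblk p1) hS1).1).symm
      · by_cases hi1 : i = p1
        · subst hi1
          rw [Equiv.swap_apply_right, hp1, hp0]
          exact ((hB.cellS t ht p0 _ (Or.inl rfl) (hblk p0) hS).2).symm
        · rw [Equiv.swap_apply_of_ne_of_ne hi0 hi1]
          unfold turned
          rw [hB.std t ht i _ hi0 hi1 (hblk i)]
    · rw [if_neg hS, if_neg hS]
      have hS1 := fun h => hS (hcons.2 h)
      by_cases hi0 : i = p0
      · subst hi0
        rw [hp0, hp0]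
        exact ((hB.cellN t ht i _ (Or.inl rfl) (hblk i) hS).1).symm
      · by_cases hi1 : i = p1
        · subst hi1
          rw [hp1, hp1]
          exact ((hB.cellN t ht i _ (Or.inr rfl) (hblk i) hS1).2).symm
        · unfold turned
          rw [hB.std t ht i _ hi0 hi1 (hblk i)]
  constructor
  · intro i j hij
    unfold swf at hij
    by_cases hS : S (bt n h a t' p0)
    · rw [if_pos hS, if_pos hS] at hij
      exact (Equiv.swap p0 p1).injective (hpure.1 hij)
    · rw [if_neg hS, if_neg hS] at hij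
      exact hpure.1 hij
  · intro i j hij
    simp only [← hs] at hij
    by_cases hS : S (bt n h a t' p0)
    · rw [if_pos hS, if_pos hS] at hij
      exact (Equiv.swap p0 p1).injective (hpure.2 hij)
    · rw [if_neg hS, if_neg hS] at hij
      exact hpure.2 hij

/-- value of a repaired transversal -/
theorem swf_of_ne {f : ZMod n → ZMod n} {i : ZMod n} (h0 : i ≠ p0) (h1 : i ≠ p1) :
    swf S p0 p1 f i = f i := by
  unfold swf
  rw [Equiv.swap_apply_of_ne_of_ne h0 h1, ite_self]

theorem swf_p0 {f : ZMod n → ZMod n} (hcons : S (f p0) ↔ S (f p1)) :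
    (S (swf S p0 p1 f p0) ∧ swf S p0 p1 f p0 = f p1) ∨
    (¬ S (swf S p0 p1 f p0) ∧ swf S p0 p1 f p0 = f p0) := by
  unfold swf
  by_cases hS : S (f p0)
  · left
    rw [if_pos hS, Equiv.swap_apply_left]
    exact ⟨hcons.1 hS, rfl⟩
  · right
    rw [if_neg hS]
    exact ⟨hS, rfl⟩

theorem swf_p1 {f : ZMod n → ZMod n} (hcons : S (f p0) ↔ S (f p1)) :
    (S (swf S p0 p1 f p1) ∧ swf S p0 p1 f p1 = f p0) ∨
    (¬ S (swf S p0 p1 f p1) ∧ swf S p0 p1 f p1 = f p1) := by
  unfold swf
  by_cases hS : S (f p0)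
  · left
    rw [if_pos hS, Equiv.swap_apply_right]
    exact ⟨hS, rfl⟩
  · right
    rw [if_neg hS]
    exact ⟨fun h => hS (hcons.2 h), rfl⟩

theorem swf_ne {f g : ZMod n → ZMod n} (hf : S (f p0) ↔ S (f p1)) (hg : S (g p0) ↔ S (g p1))
    (hne : ∀ i, f i ≠ g i) (i : ZMod n) : swf S p0 p1 f i ≠ swf S p0 p1 g i := by
  by_cases h0 : i = p0
  · subst h0
    intro e
    rcases swf_p0 hf with ⟨a, b⟩ | ⟨a, b⟩ <;> rcases swf_p0 hg with ⟨c, d⟩ | ⟨c, d⟩
    · exact hne _ (b.symm.trans (e.trans d))
    · exact c (e ▸ a)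
    · exact a (e ▸ c)
    · exact hne _ (b.symm.trans (e.trans d))
  · by_cases h1 : i = p1
    · subst h1
      intro e
      rcases swf_p1 hf with ⟨a, b⟩ | ⟨a, b⟩ <;> rcases swf_p1 hg with ⟨c, d⟩ | ⟨c, d⟩
      · exact hne _ (b.symm.trans (e.trans d))
      · exact c (e ▸ a)
      · exact a (e ▸ c)
      · exact hne _ (b.symm.trans (e.trans d))
    · rw [swf_of_ne h0 h1, swf_of_ne h0 h1]
      exact hne i

open Classical in
/-- ASSEMBLY with a swapped run -/
theorem assemble_sw [NeZero n] (hn : n = 2 * h) (hh : 2 ≤ h) (hB : SBase n h B T p0 p1 S) {r : ℕ}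
    (H0 : Finset (ZMod n × ZMod n)) (hH0 : H0.card ≤ r) (hits : Hits B H0)
    {κ : Type} [Fintype κ] (hκ : Fintype.card κ = r) (F0 : κ → ZMod n → ZMod n)
    (hF0 : ∀ k, IsTrans B (F0 k)) (hdis0 : ∀ k l, k ≠ l → ∀ i, F0 k i ≠ F0 l i)
    (havoid : ∀ k i, i ≠ p0 → i ≠ p1 → ∀ t ∈ T, ¬ Blk (h : ZMod n) t (F0 k i - i))
    (hav0S : ∀ k, S (F0 k p0) → ∀ t ∈ T, ¬ Blk (h : ZMod n) t (F0 k p0 - p1))
    (hav0N : ∀ k, ¬ S (F0 k p0) → ∀ t ∈ T, ¬ Blk (h : ZMod n) t (F0 k p0 - p0))
    (hav1S : ∀ k, S (F0 k p1) → ∀ t ∈ T, ¬ Blk (h : ZMod n) t (F0 k p1 - p0))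
    (hav1N : ∀ k, ¬ S (F0 k p1) → ∀ t ∈ T, ¬ Blk (h : ZMod n) t (F0 k p1 - p1)) :
    Attains n (4 * T.card + r) := by
  have h2 := two_h hn
  have htOf : ∀ b' (t : ZMod n), tOf n h b' t = t ∨ tOf n h b' t = t + (h : ZMod n) := by
    intro b' t; unfold tOf; cases b' <;> simp
  have haOf : ∀ b, aOf n h b = 0 ∨ aOf n h b = (h : ZMod n) := by
    intro b; unfold aOf; cases b <;> simp
  -- the base transversals avoid the repaired block transversals
  have hF0blk : ∀ k, ∀ t ∈ T, ∀ b b' i,
      F0 k i ≠ swf S p0 p1 (bt n h (aOf n h b) (tOf n h b' t)) i := by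
    intro k t ht b b' i e
    have hcons := hB.cons t ht _ _ (haOf b) (htOf b' t)
    by_cases h0 : i = p0
    · subst h0
      rcases swf_p0 hcons with ⟨a1, a2⟩ | ⟨a1, a2⟩
      · refine hav0S k (by rw [e]; exact a1) t ht ?_
        rw [e, a2]
        exact blk_bt hn (htOf b' t) _ _
      · refine hav0N k (by rw [e]; exact a1) t ht ?_
        rw [e, a2]
        exact blk_bt hn (htOf b' t) _ _
    · by_cases h1 : i = p1
      · subst h1
        rcases swf_p1 hcons with ⟨a1, a2⟩ | ⟨a1, a2⟩
        · refine hav1S k (by rw [e]; exact a1) t ht ?_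
          rw [e, a2]
          exact blk_bt hn (htOf b' t) _ _
        · refine hav1N k (by rw [e]; exact a1) t ht ?_
          rw [e, a2]
          exact blk_bt hn (htOf b' t) _ _
      · rw [swf_of_ne h0 h1] at e
        refine havoid k i h0 h1 t ht ?_
        rw [e]
        exact blk_bt hn (htOf b' t) _ _
  refine ⟨turned h B T, turned_latin_of hn hB.latin (hB.hstd hn),
    ⟨H0 ∪ tCells n h T, ?_, hits_turned hits⟩,
    ({t // t ∈ T} × Bool × Bool) ⊕ κ, inferInstance,
    fun x => match x with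
      | Sum.inl (t, b, b') => swf S p0 p1 (bt n h (aOf n h b) (tOf n h b' t.1))
      | Sum.inr k => F0 k, ?_, ?_, ?_⟩
  · refine (Finset.card_union_le _ _).trans ?_
    have := card_tCells n h T
    omega
  · rw [Fintype.card_sum, Fintype.card_prod, Fintype.card_prod, Fintype.card_bool,
      Fintype.card_coe, hκ]
    omega
  · rintro (⟨t, b, b'⟩ | k)
    · exact hB.sw_trans hn hh t.2 (htOf b' t.1) (haOf b)
    · have e : ∀ i, turned h B T i (F0 k i) = B i (F0 k i) := by
        intro i
        unfold turned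
        rw [if_neg]
        rintro ⟨hi, hc⟩
        obtain ⟨t, ht, hb⟩ := turned_blk hn hi hc
        exact havoid k i (fun e => hB.sp0 (e ▸ hi)) (fun e => hB.sp1 (e ▸ hi)) t ht hb
      refine ⟨(hF0 k).1, ?_⟩
      show Function.Injective (fun i => turned h B T i (F0 k i))
      simp only [e]
      exact (hF0 k).2
  · rintro (⟨t, b, b'⟩ | k) (⟨s, d, d'⟩ | l) hne i
    · refine swf_ne (hB.cons t.1 t.2 _ _ (haOf b) (htOf b' t.1))
        (hB.cons s.1 s.2 _ _ (haOf d) (htOf d' s.1)) ?_ i
      intro i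
      by_cases hts : t = s
      · subst hts
        refine bt_ne hn hh (haOf b) (haOf d) ?_ ?_ i
        · unfold tOf
          cases b' <;> cases d'
          · left; rfl
          · right; rfl
          · right
            simp only [if_true]
            show t.1 = t.1 + (h : ZMod n) + h
            linear_combination -h2
          · left; rfl
        · rintro ⟨ha, ht⟩
          apply hne
          have hh0 : (h : ZMod n) ≠ 0 := by
            intro e
            rw [ZMod.natCast_eq_zero_iff] at e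
            have := Nat.le_of_dvd (by omega) e
            omega
          have hb : b = d := by
            unfold aOf at ha
            cases b <;> cases d <;> simp at ha ⊢ <;> first | exact hh0 ha | exact hh0 ha.symm
          have hb' : b' = d' := by
            unfold tOf at ht
            cases b' <;> cases d' <;> simp at ht ⊢ <;> first | exact hh0 ht | exact hh0 ht.symm
          rw [hb, hb']
      · intro e
        have h5 := blk_bt hn (htOf b' t.1) (aOf n h b) i
        have h6 := blk_bt hn (htOf d' s.1) (aOf n h d) i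
        rw [e] at h5
        exact hB.disj t.1 t.2 s.1 s.2 (fun h => hts (Subtype.ext h)) _ h5 h6
    · exact (hF0blk l t.1 t.2 b b' i).symm
    · exact hF0blk k s.1 s.2 d d' i
    · exact hdis0 k l (fun h => hne (by rw [h])) i

open Classical in
/-- ASSEMBLY with a swapped run, for every number `j ≤ |T|` of turned intercalates -/
theorem assemble_sw_le [NeZero n] (hn : n = 2 * h) (hh : 2 ≤ h) (hB : SBase n h B T p0 p1 S)
    {r : ℕ} (H0 : Finset (ZMod n × ZMod n)) (hH0 : H0.card ≤ r) (hits : Hits B H0)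
    {κ : Type} [Fintype κ] (hκ : Fintype.card κ = r) (F0 : κ → ZMod n → ZMod n)
    (hF0 : ∀ k, IsTrans B (F0 k)) (hdis0 : ∀ k l, k ≠ l → ∀ i, F0 k i ≠ F0 l i)
    (havoid : ∀ k i, i ≠ p0 → i ≠ p1 → ∀ t ∈ T, ¬ Blk (h : ZMod n) t (F0 k i - i))
    (hav0S : ∀ k, S (F0 k p0) → ∀ t ∈ T, ¬ Blk (h : ZMod n) t (F0 k p0 - p1))
    (hav0N : ∀ k, ¬ S (F0 k p0) → ∀ t ∈ T, ¬ Blk (h : ZMod n) t (F0 k p0 - p0))
    (hav1S : ∀ k, S (F0 k p1) → ∀ t ∈ T, ¬ Blk (h : ZMod n) t (F0 k p1 - p0))
    (hav1N : ∀ k, ¬ S (F0 k p1) → ∀ t ∈ T, ¬ Blk (h : ZMod n) t (F0 k p1 - p1))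
    {j : ℕ} (hj : j ≤ T.card) :
    Attains n (4 * j + r) := by
  obtain ⟨T', hT', rfl⟩ := Finset.exists_subset_card_eq hj
  exact assemble_sw hn hh (hB.mono hT') H0 hH0 hits hκ F0 hF0 hdis0
    (fun k i h0 h1 t ht => havoid k i h0 h1 t (hT' ht))
    (fun k hS t ht => hav0S k hS t (hT' ht)) (fun k hS t ht => hav0N k hS t (hT' ht))
    (fun k hS t ht => hav1S k hS t (hT' ht)) (fun k hS t ht => hav1N k hS t (hT' ht))

end

end Pool.Agent.Hhelper79.LT
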